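import Pool.Agent.Lib_helper54.K4M.TrGen

set_option autoImplicit false
set_option linter.unusedSectionVars false
set_option linter.unusedVariables false
set_option linter.unusedSimpArgs false

/-!
Closed elements in the span of the traces, order 17.
-/

namespace Pool.Agent.K4Tr.P17

open Pool.Agent.K4Fin Pool.Agent.K4Closed ExteriorAlgebra
open scoped TensorProduct

lemma sumN {M : Type*} [AddCommMonoid M] (f : Fin 16 → M) : ∑ i, f i = f 0 + f 1 + f 2 + f 3 + f 4 + f 5 + f 6 + f 7 + f 8 + f 9 + f 10 + f 11 + f 12 + f 13 + f 14 + f 15 := by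
  simp only [Fin.sum_univ_castSucc, Finset.univ_eq_empty, Finset.sum_empty, zero_add]
  rfl

lemma sumC {M : Type*} [AddCommMonoid M] (f : Fin 8 → M) : ∑ i, f i = f 0 + f 1 + f 2 + f 3 + f 4 + f 5 + f 6 + f 7 := by
  simp only [Fin.sum_univ_castSucc, Finset.univ_eq_empty, Finset.sum_empty, zero_add]
  rfl

/-- the classes of `t` -/
def rep : Fin 16 → ZMod 17 × ZMod 17 :=
  ![(1, 2), (1, 3), (1, 4), (1, 5), (1, 6), (1, 7), (2, 3), (2, 4), (2, 5), (2, 6), (2, 7), (3, 4), (3, 5), (3, 6), (4, 5), (4, 6)]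

/-- the classes modulo sign -/
def em : Fin 8 → ZMod 17 := ![1, 2, 3, 4, 5, 6, 7, 8]

/-- the class modulo sign -/
def cl (x : ZMod 17) : Fin 8 := ⟨min x.val (17 - x.val) - 1, by have := ZMod.val_lt x; omega⟩

lemma em_cl : ∀ u : ZMod 17, u ≠ 0 → u = em (cl u) ∨ u = - em (cl u) := by decide +kernel

lemma cl_em : ∀ x : Fin 8, cl (em x) = x := by decide +kernel

lemma em_ne : ∀ x : Fin 8, em x ≠ 0 := by decide +kernel

lemma cl_iff : ∀ u x : ZMod 17, u ≠ 0 → x ≠ 0 → (cl u = cl x ↔ (u = x ∨ u = -x)) := by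
  decide +kernel

lemma rep_ne : ∀ i, (rep i).1 ≠ 0 ∧ (rep i).2 ≠ 0 ∧ (rep i).1 + (rep i).2 ≠ 0 := by decide +kernel

lemma rep_all : ∀ a b : ZMod 17, (∃ j : Fin 12, sgn j = -1 ∧ act j (a, b) = (a, b)) ∨
    (∃ i : Fin 16, ∃ j : Fin 12, a = (act j (rep i)).1 ∧ b = (act j (rep i)).2) := by
  decide +kernel

lemma card2 : ∀ x : Fin 8,
    ((Finset.univ.erase (0 : ZMod 17)).filter (fun v => cl v = x)).card = 2 := by decide +kernel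

lemma e_1_2_3 : ∀ i, EE (rep i) 1 2 3 =
    (![2, 0, 0, -2, 0, 2, 2, 0, 0, 0, 2, 0, 0, 0, 0, 0] : Fin 16 → ℤ) i := by decide +kernel

lemma e_1_2_4 : ∀ i, EE (rep i) 1 2 4 =
    (![0, 0, 0, 0, 0, 0, 0, 2, 0, -2, -2, 0, 0, 0, -2, 0] : Fin 16 → ℤ) i := by decide +kernel

lemma e_1_2_5 : ∀ i, EE (rep i) 1 2 5 =
    (![0, 0, 0, 0, 0, 0, -2, 0, 2, 2, 0, 2, 0, 2, 0, 0] : Fin 16 → ℤ) i := by decide +kernel

lemma e_1_2_6 : ∀ i, EE (rep i) 1 2 6 =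
    (![0, 0, 0, 0, 0, 0, 0, -2, 0, 2, 0, 0, -2, 0, 0, 0] : Fin 16 → ℤ) i := by decide +kernel

lemma e_1_2_7 : ∀ i, EE (rep i) 1 2 7 =
    (![0, 0, 0, 0, 0, 0, 0, 0, 0, 0, 2, 0, 2, 0, 2, 0] : Fin 16 → ℤ) i := by decide +kernel

lemma e_1_3_4 : ∀ i, EE (rep i) 1 3 4 =
    (![0, 2, 2, 0, -2, 0, 0, 0, 0, 0, 0, 2, 0, 0, 2, -2] : Fin 16 → ℤ) i := by decide +kernel

lemma e_1_3_5 : ∀ i, EE (rep i) 1 3 5 =
    (![0, 0, 0, 0, 0, 0, 2, 2, 0, 0, 0, -2, 2, 0, 0, 4] : Fin 16 → ℤ) i := by decide +kernel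

lemma b_1_2 : ∀ i, BB (rep i) 1 2 =
    (![2, 0, 0, -2, 0, 2, 0, 2, 2, 0, 0, 2, 0, 2, -2, 0] : Fin 16 → ℤ) i := by decide +kernel

lemma b_1_3 : ∀ i, BB (rep i) 1 3 =
    (![-2, 2, 2, 2, -2, -2, 2, -2, -2, 2, -2, -2, -2, -2, 2, 2] : Fin 16 → ℤ) i := by decide +kernel

lemma b_1_4 : ∀ i, BB (rep i) 1 4 =
    (![0, 0, 0, 0, 0, 0, 0, 0, 0, 0, 0, 0, 0, 0, 0, 0] : Fin 16 → ℤ) i := by decide +kernel

lemma b_1_5 : ∀ i, BB (rep i) 1 5 =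
    (![-2, -2, -2, 2, 2, -2, -2, -2, -2, -2, 2, -2, 2, -2, 2, -2] : Fin 16 → ℤ) i := by decide +kernel

lemma b_1_6 : ∀ i, BB (rep i) 1 6 =
    (![2, -2, -2, -2, 2, 2, -2, 2, 2, -2, 2, 2, 2, 2, -2, -2] : Fin 16 → ℤ) i := by decide +kernel

lemma b_2_3 : ∀ i, BB (rep i) 2 3 =
    (![2, 2, 2, -2, -2, 2, 2, 2, 2, 2, -2, 2, -2, 2, -2, 2] : Fin 16 → ℤ) i := by decide +kernel

lemma b_2_4 : ∀ i, BB (rep i) 2 4 =
    (![2, 0, 0, -2, 0, 2, 0, 2, 2, 0, 0, 2, 0, 2, -2, 0] : Fin 16 → ℤ) i := by decide +kernel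

lemma b_2_5 : ∀ i, BB (rep i) 2 5 =
    (![2, -2, -2, -2, 2, 2, -2, 2, 2, -2, 2, 2, 2, 2, -2, -2] : Fin 16 → ℤ) i := by decide +kernel

lemma b_2_6 : ∀ i, BB (rep i) 2 6 =
    (![-2, 2, 2, 2, -2, -2, 2, -2, -2, 2, -2, -2, -2, -2, 2, 2] : Fin 16 → ℤ) i := by decide +kernel

lemma b_2_7 : ∀ i, BB (rep i) 2 7 =
    (![-2, -2, -2, 2, 2, -2, -2, -2, -2, -2, 2, -2, 2, -2, 2, -2] : Fin 16 → ℤ) i := by decide +kernel

lemma b_3_1 : ∀ i, BB (rep i) 3 1 =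
    (![2, -2, -2, -2, 2, 2, -2, 2, 2, -2, 2, 2, 2, 2, -2, -2] : Fin 16 → ℤ) i := by decide +kernel

lemma b_3_4 : ∀ i, BB (rep i) 3 4 =
    (![2, 2, 2, -2, -2, 2, 2, 2, 2, 2, -2, 2, -2, 2, -2, 2] : Fin 16 → ℤ) i := by decide +kernel

lemma b_3_5 : ∀ i, BB (rep i) 3 5 =
    (![0, 0, 0, 0, 0, 0, 0, 0, 0, 0, 0, 0, 0, 0, 0, 0] : Fin 16 → ℤ) i := by decide +kernel

lemma b_3_6 : ∀ i, BB (rep i) 3 6 =
    (![2, 0, 0, -2, 0, 2, 0, 2, 2, 0, 0, 2, 0, 2, -2, 0] : Fin 16 → ℤ) i := by decide +kernel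

lemma b_4_1 : ∀ i, BB (rep i) 4 1 =
    (![0, 0, 0, 0, 0, 0, 0, 0, 0, 0, 0, 0, 0, 0, 0, 0] : Fin 16 → ℤ) i := by decide +kernel

lemma b_5_1 : ∀ i, BB (rep i) 5 1 =
    (![2, 2, 2, -2, -2, 2, 2, 2, 2, 2, -2, 2, -2, 2, -2, 2] : Fin 16 → ℤ) i := by decide +kernel

lemma b_6_1 : ∀ i, BB (rep i) 6 1 =
    (![-2, 2, 2, 2, -2, -2, 2, -2, -2, 2, -2, -2, -2, -2, 2, 2] : Fin 16 → ℤ) i := by decide +kernel

lemma b_7_1 : ∀ i, BB (rep i) 7 1 =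
    (![-2, -2, -2, 2, 2, -2, -2, -2, -2, -2, 2, -2, 2, -2, 2, -2] : Fin 16 → ℤ) i := by decide +kernel

theorem linN {H : Type*} [AddCommGroup H] [Module ℚ H] (y : Fin 16 → H) (ξ : H)
    (r0 : (-1 : ℚ) • y 0 + (1 : ℚ) • y 5 = 0)
    (r1 : (-1 : ℚ) • y 1 + (-1 : ℚ) • y 4 + (-1 : ℚ) • ξ = 0)
    (r2 : (1 : ℚ) • y 1 + (-1 : ℚ) • y 2 = 0)
    (r3 : (-1 : ℚ) • y 3 + (-1 : ℚ) • y 5 + (-1 : ℚ) • ξ = 0)
    (r4 : (1 : ℚ) • y 0 + (-1 : ℚ) • y 1 + (-1 : ℚ) • y 10 + (1 : ℚ) • y 14 = 0)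
    (r5 : (1 : ℚ) • y 2 + (-1 : ℚ) • y 3 + (-1 : ℚ) • y 6 + (-1 : ℚ) • y 11 + (2 / 3 : ℚ) • ξ = 0)
    (r6 : (1 : ℚ) • y 3 + (1 : ℚ) • y 6 + (-1 : ℚ) • y 7 + (-1 : ℚ) • y 9 + (2 : ℚ) • y 13 + (-2 / 3 : ℚ) • ξ = 0)
    (r7 : (1 : ℚ) • y 7 + (2 : ℚ) • y 8 + (-2 : ℚ) • y 11 + (-1 : ℚ) • y 12 + (1 : ℚ) • y 14 + (-1 : ℚ) • y 15 + (-4 / 3 : ℚ) • ξ = 0)
    (r8 : (-1 : ℚ) • y 7 + (1 : ℚ) • y 8 + (-1 : ℚ) • y 9 + (1 : ℚ) • y 11 + (-1 : ℚ) • y 13 + (1 : ℚ) • y 15 + (2 / 3 : ℚ) • ξ = 0)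
    (r9 : (-1 : ℚ) • y 3 + (-1 : ℚ) • y 7 + (1 : ℚ) • y 8 + (-1 : ℚ) • y 10 + (1 : ℚ) • y 12 + (-1 : ℚ) • y 13 + (4 / 3 : ℚ) • ξ = 0)
    (c : Fin 16 → ℚ)
    (L10 : (1 : ℚ) * c 0 + (-1 : ℚ) * c 3 + (1 : ℚ) * c 5 + (1 : ℚ) * c 6 + (1 : ℚ) * c 10 = 0)
    (L11 : (2 : ℚ) * c 0 + (2 : ℚ) * c 1 + (2 : ℚ) * c 2 + (-2 : ℚ) * c 3 + (-2 : ℚ) * c 4 + (2 : ℚ) * c 5 + (3 : ℚ) * c 6 + (2 : ℚ) * c 7 + (-1 : ℚ) * c 9 + (1 : ℚ) * c 11 = 0)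
    (L12 : (1 : ℚ) * c 7 + (-1 : ℚ) * c 9 + (1 : ℚ) * c 12 = 0)
    (L13 : (-2 : ℚ) * c 0 + (-2 : ℚ) * c 1 + (-2 : ℚ) * c 2 + (2 : ℚ) * c 3 + (2 : ℚ) * c 4 + (-2 : ℚ) * c 5 + (-4 : ℚ) * c 6 + (-2 : ℚ) * c 7 + (1 : ℚ) * c 8 + (2 : ℚ) * c 9 + (1 : ℚ) * c 13 = 0)
    (L14 : (-1 : ℚ) * c 0 + (1 : ℚ) * c 3 + (-1 : ℚ) * c 5 + (-1 : ℚ) * c 6 + (-1 : ℚ) * c 7 + (1 : ℚ) * c 9 + (1 : ℚ) * c 14 = 0)
    (L15 : (1 : ℚ) * c 0 + (1 : ℚ) * c 1 + (1 : ℚ) * c 2 + (-1 : ℚ) * c 3 + (-1 : ℚ) * c 4 + (1 : ℚ) * c 5 + (2 : ℚ) * c 6 + (1 : ℚ) * c 7 + (1 : ℚ) * c 15 = 0)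
    : ∃ q : ℚ, ∑ i, c i • y i = q • ξ := by
  have s0 : y 0 = (1 : ℚ) • y 10 + (2 : ℚ) • y 11 + (-2 : ℚ) • y 13 + (-1 : ℚ) • y 14 + (1 : ℚ) • y 15 + (1 / 4 : ℚ) • ξ := by
    linear_combination (norm := module) (-1 / 4 : ℚ) • r0 + (3 / 4 : ℚ) • r2 + (-1 / 4 : ℚ) • r3 + (3 / 4 : ℚ) • r4 + (3 / 4 : ℚ) • r5 + (3 / 4 : ℚ) • r6 + (1 / 4 : ℚ) • r7 + (-3 / 4 : ℚ) • r8 + (1 / 4 : ℚ) • r9
  have s1 : y 1 = (2 : ℚ) • y 11 + (-2 : ℚ) • y 13 + (1 : ℚ) • y 15 + (1 / 4 : ℚ) • ξ := by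
    linear_combination (norm := module) (-1 / 4 : ℚ) • r0 + (3 / 4 : ℚ) • r2 + (-1 / 4 : ℚ) • r3 + (-1 / 4 : ℚ) • r4 + (3 / 4 : ℚ) • r5 + (3 / 4 : ℚ) • r6 + (1 / 4 : ℚ) • r7 + (-3 / 4 : ℚ) • r8 + (1 / 4 : ℚ) • r9
  have s2 : y 2 = (2 : ℚ) • y 11 + (-2 : ℚ) • y 13 + (1 : ℚ) • y 15 + (1 / 4 : ℚ) • ξ := by
    linear_combination (norm := module) (-1 / 4 : ℚ) • r0 + (-1 / 4 : ℚ) • r2 + (-1 / 4 : ℚ) • r3 + (-1 / 4 : ℚ) • r4 + (3 / 4 : ℚ) • r5 + (3 / 4 : ℚ) • r6 + (1 / 4 : ℚ) • r7 + (-3 / 4 : ℚ) • r8 + (1 / 4 : ℚ) • r9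
  have s3 : y 3 = (-1 : ℚ) • y 10 + (-2 : ℚ) • y 11 + (2 : ℚ) • y 13 + (1 : ℚ) • y 14 + (-1 : ℚ) • y 15 + (-5 / 4 : ℚ) • ξ := by
    linear_combination (norm := module) (-3 / 4 : ℚ) • r0 + (-3 / 4 : ℚ) • r2 + (-3 / 4 : ℚ) • r3 + (-3 / 4 : ℚ) • r4 + (-3 / 4 : ℚ) • r5 + (-3 / 4 : ℚ) • r6 + (-1 / 4 : ℚ) • r7 + (3 / 4 : ℚ) • r8 + (-1 / 4 : ℚ) • r9
  have s4 : y 4 = (-2 : ℚ) • y 11 + (2 : ℚ) • y 13 + (-1 : ℚ) • y 15 + (-5 / 4 : ℚ) • ξ := by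
    linear_combination (norm := module) (1 / 4 : ℚ) • r0 + (-1 : ℚ) • r1 + (-3 / 4 : ℚ) • r2 + (1 / 4 : ℚ) • r3 + (1 / 4 : ℚ) • r4 + (-3 / 4 : ℚ) • r5 + (-3 / 4 : ℚ) • r6 + (-1 / 4 : ℚ) • r7 + (3 / 4 : ℚ) • r8 + (-1 / 4 : ℚ) • r9
  have s5 : y 5 = (1 : ℚ) • y 10 + (2 : ℚ) • y 11 + (-2 : ℚ) • y 13 + (-1 : ℚ) • y 14 + (1 : ℚ) • y 15 + (1 / 4 : ℚ) • ξ := by
    linear_combination (norm := module) (3 / 4 : ℚ) • r0 + (3 / 4 : ℚ) • r2 + (-1 / 4 : ℚ) • r3 + (3 / 4 : ℚ) • r4 + (3 / 4 : ℚ) • r5 + (3 / 4 : ℚ) • r6 + (1 / 4 : ℚ) • r7 + (-3 / 4 : ℚ) • r8 + (1 / 4 : ℚ) • r9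
  have s6 : y 6 = (1 : ℚ) • y 10 + (3 : ℚ) • y 11 + (-4 : ℚ) • y 13 + (-1 : ℚ) • y 14 + (2 : ℚ) • y 15 + (13 / 6 : ℚ) • ξ := by
    linear_combination (norm := module) (1 / 2 : ℚ) • r0 + (1 / 2 : ℚ) • r2 + (1 / 2 : ℚ) • r3 + (1 / 2 : ℚ) • r4 + (1 / 2 : ℚ) • r5 + (3 / 2 : ℚ) • r6 + (1 / 2 : ℚ) • r7 + (-3 / 2 : ℚ) • r8 + (1 / 2 : ℚ) • r9
  have s7 : y 7 = (2 : ℚ) • y 11 + (1 : ℚ) • y 12 + (-2 : ℚ) • y 13 + (-1 : ℚ) • y 14 + (1 : ℚ) • y 15 + (13 / 6 : ℚ) • ξ := by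
    linear_combination (norm := module) (1 / 2 : ℚ) • r0 + (1 / 2 : ℚ) • r2 + (1 / 2 : ℚ) • r3 + (1 / 2 : ℚ) • r4 + (1 / 2 : ℚ) • r5 + (1 / 2 : ℚ) • r6 + (1 / 2 : ℚ) • r7 + (-1 / 2 : ℚ) • r8 + (-1 / 2 : ℚ) • r9
  have s8 : y 8 = (1 : ℚ) • y 13 + (-5 / 12 : ℚ) • ξ := by
    linear_combination (norm := module) (-1 / 4 : ℚ) • r0 + (-1 / 4 : ℚ) • r2 + (-1 / 4 : ℚ) • r3 + (-1 / 4 : ℚ) • r4 + (-1 / 4 : ℚ) • r5 + (-1 / 4 : ℚ) • r6 + (1 / 4 : ℚ) • r7 + (1 / 4 : ℚ) • r8 + (1 / 4 : ℚ) • r9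
  have s9 : y 9 = (-1 : ℚ) • y 11 + (-1 : ℚ) • y 12 + (2 : ℚ) • y 13 + (1 : ℚ) • y 14 + (-23 / 12 : ℚ) • ξ := by
    linear_combination (norm := module) (-3 / 4 : ℚ) • r0 + (-3 / 4 : ℚ) • r2 + (-3 / 4 : ℚ) • r3 + (-3 / 4 : ℚ) • r4 + (-3 / 4 : ℚ) • r5 + (-3 / 4 : ℚ) • r6 + (-1 / 4 : ℚ) • r7 + (-1 / 4 : ℚ) • r8 + (3 / 4 : ℚ) • r9
  refine ⟨(1 / 4 : ℚ) * c 0 + (1 / 4 : ℚ) * c 1 + (1 / 4 : ℚ) * c 2 + (-5 / 4 : ℚ) * c 3 + (-5 / 4 : ℚ) * c 4 + (1 / 4 : ℚ) * c 5 + (13 / 6 : ℚ) * c 6 + (13 / 6 : ℚ) * c 7 + (-5 / 12 : ℚ) * c 8 + (-23 / 12 : ℚ) * c 9, ?_⟩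
  rw [sumN, s0, s1, s2, s3, s4, s5, s6, s7, s8, s9]
  trans (((1 : ℚ) * c 0 + (-1 : ℚ) * c 3 + (1 : ℚ) * c 5 + (1 : ℚ) * c 6 + (1 : ℚ) * c 10) • y 10 + ((2 : ℚ) * c 0 + (2 : ℚ) * c 1 + (2 : ℚ) * c 2 + (-2 : ℚ) * c 3 + (-2 : ℚ) * c 4 + (2 : ℚ) * c 5 + (3 : ℚ) * c 6 + (2 : ℚ) * c 7 + (-1 : ℚ) * c 9 + (1 : ℚ) * c 11) • y 11 + ((1 : ℚ) * c 7 + (-1 : ℚ) * c 9 + (1 : ℚ) * c 12) • y 12 + ((-2 : ℚ) * c 0 + (-2 : ℚ) * c 1 + (-2 : ℚ) * c 2 + (2 : ℚ) * c 3 + (2 : ℚ) * c 4 + (-2 : ℚ) * c 5 + (-4 : ℚ) * c 6 + (-2 : ℚ) * c 7 + (1 : ℚ) * c 8 + (2 : ℚ) * c 9 + (1 : ℚ) * c 13) • y 13 + ((-1 : ℚ) * c 0 + (1 : ℚ) * c 3 + (-1 : ℚ) * c 5 + (-1 : ℚ) * c 6 + (-1 : ℚ) * c 7 + (1 : ℚ) * c 9 + (1 : ℚ) * c 14) • y 14 + ((1 : ℚ) * c 0 + (1 : ℚ) * c 1 + (1 : ℚ) * c 2 + (-1 : ℚ) * c 3 + (-1 : ℚ) * c 4 + (1 : ℚ) * c 5 + (2 : ℚ) * c 6 + (1 : ℚ) * c 7 + (1 : ℚ) * c 15) •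 y 15 + ((1 / 4 : ℚ) * c 0 + (1 / 4 : ℚ) * c 1 + (1 / 4 : ℚ) * c 2 + (-5 / 4 : ℚ) * c 3 + (-5 / 4 : ℚ) * c 4 + (1 / 4 : ℚ) * c 5 + (13 / 6 : ℚ) * c 6 + (13 / 6 : ℚ) * c 7 + (-5 / 12 : ℚ) * c 8 + (-23 / 12 : ℚ) * c 9) • ξ)
  · module
  · rw [L10, L11, L12, L13, L14, L15]
    simp only [zero_smul, zero_add]

section main

variable {B G H : Type*} [AddCommGroup B] [Module ℚ B] [AddCommGroup G] [Module ℚ G]
  [AddCommGroup H] [Module ℚ H] {t : ZMod 17 → ZMod 17 → B} {g : ZMod 17 → G}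
  {m : B →ₗ[ℚ] G →ₗ[ℚ] H}

/-- the traces of the classes -/
noncomputable def yy (t : ZMod 17 → ZMod 17 → B) (g : ZMod 17 → G) (m : B →ₗ[ℚ] G →ₗ[ℚ] H)
    (i : Fin 16) : H := TT t g m (rep i).1 (rep i).2 1

/-- the generator -/
noncomputable def xx (t : ZMod 17 → ZMod 17 → B) (g : ZMod 17 → G) (m : B →ₗ[ℚ] G →ₗ[ℚ] H) :
    H := Tr (fun a b => m (t a b) (g b - g a)) 3

lemma tv (D : Dat t g m) (a b c : ZMod 17) (s : ℤ) (i : Fin 16)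
    (h : (s = 0 ∧ ∃ j : Fin 12, sgn j = -1 ∧ act j (a, b) = (a, b)) ∨
      ∃ j : Fin 12, c ≠ 0 ∧ a = c * (act j (rep i)).1 ∧ b = c * (act j (rep i)).2 ∧ s = sgn j) :
    TT t g m a b c = (s : ℚ) • yy t g m i := TT_rep D a b c s (rep i) h

lemma xv (D : Dat t g m) (a b d : ZMod 17) (k : ℤ) (h : a * d = 1 ∧ q17 (d * b) = k) :
    TT t g m a b b - TT t g m a b a = (k : ℚ) • xx t g m := by
  rw [XX_val D a b d h.1, seventeen_aux D.man, h.2, Int.cast_smul_eq_zsmul]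
  rfl

lemma rel0 (D : Dat t g m) : (-1 : ℚ) • yy t g m 0 + (1 : ℚ) • yy t g m 5 = 0 := by
  have h := xv D 1 2 1 (0) (by decide +kernel)
  rw [tv D 1 2 2 (1) 5 (by decide +kernel), tv D 1 2 1 (1) 0 (by decide +kernel)] at h
  push_cast at h
  linear_combination (norm := module) h

lemma rel1 (D : Dat t g m) : (-1 : ℚ) • yy t g m 1 + (-1 : ℚ) • yy t g m 4 + (-1 : ℚ) • xx t g m = 0 := by
  have h := xv D 1 3 1 (1) (by decide +kernel)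
  rw [tv D 1 3 3 (-1) 4 (by decide +kernel), tv D 1 3 1 (1) 1 (by decide +kernel)] at h
  push_cast at h
  linear_combination (norm := module) h

lemma rel2 (D : Dat t g m) : (1 : ℚ) • yy t g m 1 + (-1 : ℚ) • yy t g m 2 = 0 := by
  have h := xv D 1 4 1 (0) (by decide +kernel)
  rw [tv D 1 4 4 (1) 1 (by decide +kernel), tv D 1 4 1 (1) 2 (by decide +kernel)] at h
  push_cast at h
  linear_combination (norm := module) h

lemma rel3 (D : Dat t g m) : (-1 : ℚ) • yy t g m 3 + (-1 : ℚ) • yy t g m 5 + (-1 : ℚ) • xx t g m = 0 := by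
  have h := xv D 1 5 1 (1) (by decide +kernel)
  rw [tv D 1 5 5 (-1) 5 (by decide +kernel), tv D 1 5 1 (1) 3 (by decide +kernel)] at h
  push_cast at h
  linear_combination (norm := module) h

lemma rel4 (D : Dat t g m) : (1 : ℚ) • yy t g m 0 + (-1 : ℚ) • yy t g m 1 + (-1 : ℚ) • yy t g m 10 + (1 : ℚ) • yy t g m 14 = 0 := by
  have h := r4tr D 1 1 2 13 (by decide +kernel)
  rw [xv D 1 1 1 (0) (by decide +kernel), xv D 1 2 1 (0) (by decide +kernel), xv D 2 13 9 (0) (by decide +kernel), xv D 13 1 4 (0) (by decide +kernel), xv D 1 13 1 (0) (by decide +kernel)] at h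
  rw [tv D 1 1 13 0 0 (by decide +kernel), tv D 1 1 2 0 0 (by decide +kernel), tv D 2 13 1 0 0 (by decide +kernel), tv D 1 2 1 (1) 0 (by decide +kernel), tv D 1 2 13 (-1) 14 (by decide +kernel), tv D 13 1 2 (-1) 10 (by decide +kernel), tv D 13 1 1 (1) 1 (by decide +kernel)] at h
  push_cast at h
  linear_combination (norm := module) h

lemma rel5 (D : Dat t g m) : (1 : ℚ) • yy t g m 2 + (-1 : ℚ) • yy t g m 3 + (-1 : ℚ) • yy t g m 6 + (-1 : ℚ) • yy t g m 11 + (2 / 3 : ℚ) • xx t g m = 0 := by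
  have h := r4tr D 1 1 4 11 (by decide +kernel)
  rw [xv D 1 1 1 (0) (by decide +kernel), xv D 1 4 1 (0) (by decide +kernel), xv D 4 11 13 (1) (by decide +kernel), xv D 11 1 14 (-1) (by decide +kernel), xv D 1 11 1 (-1) (by decide +kernel)] at h
  rw [tv D 1 1 11 0 0 (by decide +kernel), tv D 1 1 4 0 0 (by decide +kernel), tv D 4 11 1 (1) 7 (by decide +kernel), tv D 1 4 1 (1) 2 (by decide +kernel), tv D 1 4 11 (1) 6 (by decide +kernel), tv D 11 1 4 (-1) 11 (by decide +kernel), tv D 11 1 1 (1) 3 (by decide +kernel)] at h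
  push_cast at h
  linear_combination (norm := module) h

lemma rel6 (D : Dat t g m) : (1 : ℚ) • yy t g m 3 + (1 : ℚ) • yy t g m 6 + (-1 : ℚ) • yy t g m 7 + (-1 : ℚ) • yy t g m 9 + (2 : ℚ) • yy t g m 13 + (-2 / 3 : ℚ) • xx t g m = 0 := by
  have h := r4tr D 1 2 3 11 (by decide +kernel)
  rw [xv D 1 2 1 (0) (by decide +kernel), xv D 2 3 9 (-1) (by decide +kernel), xv D 3 11 6 (0) (by decide +kernel), xv D 11 1 14 (-1) (by decide +kernel), xv D 1 3 1 (1) (by decide +kernel), xv D 2 11 9 (-1) (by decide +kernel)] at h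
  rw [tv D 1 2 11 (1) 13 (by decide +kernel), tv D 1 2 3 (-1) 3 (by decide +kernel), tv D 3 11 2 0 0 (by decide +kernel), tv D 3 11 1 0 0 (by decide +kernel), tv D 2 3 1 (1) 6 (by decide +kernel), tv D 2 3 11 (1) 9 (by decide +kernel), tv D 11 1 3 (-1) 7 (by decide +kernel), tv D 11 1 2 (-1) 13 (by decide +kernel)] at h
  push_cast at h
  linear_combination (norm := module) h

lemma rel7 (D : Dat t g m) : (1 : ℚ) • yy t g m 7 + (2 : ℚ) • yy t g m 8 + (-2 : ℚ) • yy t g m 11 + (-1 : ℚ) • yy t g m 12 + (1 : ℚ) • yy t g m 14 + (-1 : ℚ) • yy t g m 15 + (-4 / 3 : ℚ) • xx t g m = 0 := by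
  have h := r4tr D 1 2 4 10 (by decide +kernel)
  rw [xv D 1 2 1 (0) (by decide +kernel), xv D 2 4 9 (0) (by decide +kernel), xv D 4 10 13 (-1) (by decide +kernel), xv D 10 1 12 (-1) (by decide +kernel), xv D 1 4 1 (0) (by decide +kernel), xv D 2 10 9 (1) (by decide +kernel)] at h
  rw [tv D 1 2 10 (1) 8 (by decide +kernel), tv D 1 2 4 (-1) 14 (by decide +kernel), tv D 4 10 2 (1) 8 (by decide +kernel), tv D 4 10 1 (1) 11 (by decide +kernel), tv D 2 4 1 (1) 7 (by decide +kernel), tv D 2 4 10 (1) 11 (by decide +kernel), tv D 10 1 4 (-1) 15 (by decide +kernel), tv D 10 1 2 (1) 12 (by decide +kernel)] at h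
  push_cast at h
  linear_combination (norm := module) h

lemma rel8 (D : Dat t g m) : (-1 : ℚ) • yy t g m 7 + (1 : ℚ) • yy t g m 8 + (-1 : ℚ) • yy t g m 9 + (1 : ℚ) • yy t g m 11 + (-1 : ℚ) • yy t g m 13 + (1 : ℚ) • yy t g m 15 + (2 / 3 : ℚ) • xx t g m = 0 := by
  have h := r4tr D 1 2 9 5 (by decide +kernel)
  rw [xv D 1 2 1 (0) (by decide +kernel), xv D 2 9 9 (0) (by decide +kernel), xv D 9 5 2 (-1) (by decide +kernel), xv D 5 1 7 (1) (by decide +kernel), xv D 1 9 1 (0) (by decide +kernel), xv D 2 5 9 (-1) (by decide +kernel)] at h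
  rw [tv D 1 2 5 (1) 11 (by decide +kernel), tv D 1 2 9 (1) 7 (by decide +kernel), tv D 9 5 2 (1) 15 (by decide +kernel), tv D 9 5 1 (-1) 12 (by decide +kernel), tv D 2 9 1 (-1) 9 (by decide +kernel), tv D 2 9 5 (1) 12 (by decide +kernel), tv D 5 1 9 (1) 8 (by decide +kernel), tv D 5 1 2 (1) 13 (by decide +kernel)] at h
  push_cast at h
  linear_combination (norm := module) h

lemma rel9 (D : Dat t g m) : (-1 : ℚ) • yy t g m 3 + (-1 : ℚ) • yy t g m 7 + (1 : ℚ) • yy t g m 8 + (-1 : ℚ) • yy t g m 10 + (1 : ℚ) • yy t g m 12 + (-1 : ℚ) • yy t g m 13 + (4 / 3 : ℚ) • xx t g m = 0 := by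
  have h := r4tr D 1 2 11 3 (by decide +kernel)
  rw [xv D 1 2 1 (0) (by decide +kernel), xv D 2 11 9 (-1) (by decide +kernel), xv D 11 3 14 (0) (by decide +kernel), xv D 3 1 6 (1) (by decide +kernel), xv D 1 11 1 (-1) (by decide +kernel), xv D 2 3 9 (-1) (by decide +kernel)] at h
  rw [tv D 1 2 3 (-1) 3 (by decide +kernel), tv D 1 2 11 (1) 13 (by decide +kernel), tv D 11 3 2 0 0 (by decide +kernel), tv D 11 3 1 0 0 (by decide +kernel), tv D 2 11 1 (-1) 7 (by decide +kernel), tv D 2 11 3 (-1) 8 (by decide +kernel), tv D 3 1 11 (1) 12 (by decide +kernel), tv D 3 1 2 (1) 10 (by decide +kernel)] at h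
  push_cast at h
  linear_combination (norm := module) h

lemma orb0 (D : Dat t g m) (hg : ∑ v ∈ Finset.univ.erase (0 : ZMod 17), g v = 0) :
    (1 : ℚ) • yy t g m 0 + (-1 : ℚ) • yy t g m 3 + (1 : ℚ) • yy t g m 5 + (1 : ℚ) • yy t g m 7 + (1 : ℚ) • yy t g m 8 + (1 : ℚ) • yy t g m 11 + (1 : ℚ) • yy t g m 13 + (-1 : ℚ) • yy t g m 14 = 0 := by
  have h := TT_sum (m := m) D hg 1 2
  have e : Finset.univ.erase (0 : ZMod 17) = ({1, 2, 3, 4, 5, 6, 7, 8, 9, 10, 11, 12, 13, 14, 15, 16} : Finset (ZMod 17)) := by decide +kernel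
  rw [e] at h
  rw [Finset.sum_insert (by decide +kernel)] at h
  rw [Finset.sum_insert (by decide +kernel)] at h
  rw [Finset.sum_insert (by decide +kernel)] at h
  rw [Finset.sum_insert (by decide +kernel)] at h
  rw [Finset.sum_insert (by decide +kernel)] at h
  rw [Finset.sum_insert (by decide +kernel)] at h
  rw [Finset.sum_insert (by decide +kernel)] at h
  rw [Finset.sum_insert (by decide +kernel)] at h
  rw [Finset.sum_insert (by decide +kernel)] at h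
  rw [Finset.sum_insert (by decide +kernel)] at h
  rw [Finset.sum_insert (by decide +kernel)] at h
  rw [Finset.sum_insert (by decide +kernel)] at h
  rw [Finset.sum_insert (by decide +kernel)] at h
  rw [Finset.sum_insert (by decide +kernel)] at h
  rw [Finset.sum_insert (by decide +kernel)] at h
  rw [Finset.sum_singleton, tv D 1 2 1 (1) 0 (by decide +kernel), tv D 1 2 2 (1) 5 (by decide +kernel), tv D 1 2 3 (-1) 3 (by decide +kernel), tv D 1 2 4 (-1) 14 (by decide +kernel), tv D 1 2 5 (1) 11 (by decide +kernel), tv D 1 2 6 (1) 13 (by decide +kernel), tv D 1 2 7 (1) 8 (by decide +kernel), tv D 1 2 8 (1) 7 (by decide +kernel), tv D 1 2 9 (1) 7 (by decide +kernel), tv D 1 2 10 (1) 8 (by decide +kernel), tv D 1 2 11 (1) 13 (by decide +kernel), tv D 1 2 12 (1) 11 (by decide +kernel), tv D 1 2 13 (-1) 14 (by decide +kernel), tv D 1 2 14 (-1)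 3 (by decide +kernel), tv D 1 2 15 (1) 5 (by decide +kernel), tv D 1 2 16 (1) 0 (by decide +kernel)] at h
  push_cast at h
  linear_combination (norm := module) (1 / 2 : ℚ) • h

lemma orb1 (D : Dat t g m) (hg : ∑ v ∈ Finset.univ.erase (0 : ZMod 17), g v = 0) :
    (1 : ℚ) • yy t g m 1 + (1 : ℚ) • yy t g m 2 + (-1 : ℚ) • yy t g m 4 + (1 : ℚ) • yy t g m 6 + (1 : ℚ) • yy t g m 9 + (-1 : ℚ) • yy t g m 10 + (-1 : ℚ) • yy t g m 12 + (1 : ℚ) • yy t g m 15 = 0 := by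
  have h := TT_sum (m := m) D hg 1 3
  have e : Finset.univ.erase (0 : ZMod 17) = ({1, 2, 3, 4, 5, 6, 7, 8, 9, 10, 11, 12, 13, 14, 15, 16} : Finset (ZMod 17)) := by decide +kernel
  rw [e] at h
  rw [Finset.sum_insert (by decide +kernel)] at h
  rw [Finset.sum_insert (by decide +kernel)] at h
  rw [Finset.sum_insert (by decide +kernel)] at h
  rw [Finset.sum_insert (by decide +kernel)] at h
  rw [Finset.sum_insert (by decide +kernel)] at h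
  rw [Finset.sum_insert (by decide +kernel)] at h
  rw [Finset.sum_insert (by decide +kernel)] at h
  rw [Finset.sum_insert (by decide +kernel)] at h
  rw [Finset.sum_insert (by decide +kernel)] at h
  rw [Finset.sum_insert (by decide +kernel)] at h
  rw [Finset.sum_insert (by decide +kernel)] at h
  rw [Finset.sum_insert (by decide +kernel)] at h
  rw [Finset.sum_insert (by decide +kernel)] at h
  rw [Finset.sum_insert (by decide +kernel)] at h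
  rw [Finset.sum_insert (by decide +kernel)] at h
  rw [Finset.sum_singleton, tv D 1 3 1 (1) 1 (by decide +kernel), tv D 1 3 2 (-1) 10 (by decide +kernel), tv D 1 3 3 (-1) 4 (by decide +kernel), tv D 1 3 4 (1) 2 (by decide +kernel), tv D 1 3 5 (1) 15 (by decide +kernel), tv D 1 3 6 (-1) 12 (by decide +kernel), tv D 1 3 7 (1) 6 (by decide +kernel), tv D 1 3 8 (1) 9 (by decide +kernel), tv D 1 3 9 (1) 9 (by decide +kernel), tv D 1 3 10 (1) 6 (by decide +kernel), tv D 1 3 11 (-1) 12 (by decide +kernel), tv D 1 3 12 (1) 15 (by decide +kernel), tv D 1 3 13 (1) 2 (by decide +kernel), tv D 1 3 14 (-1) 4 (by decide +kernel), tv D 1 3 15 (-1) 10 (by decide +kernel), tv D 1 3 16 (1) 1 (by decide +kernel)] at h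
  push_cast at h
  linear_combination (norm := module) (1 / 2 : ℚ) • h

theorem main (D : Dat t g m) {de : B →ₗ[ℚ] ExteriorAlgebra ℚ G}
    (hde : ∀ a b, de (t a b) = ι ℚ (g a) * ι ℚ (g b) + ι ℚ (g b) * ι ℚ (g (a + b)) +
      ι ℚ (g (a + b)) * ι ℚ (g a))
    (hind : LinearIndependent ℚ (fun k : Fin 7 => g (em k.succ) - g (em 0)))
    (z : B ⊗[ℚ] G)
    (hz : z ∈ Submodule.span ℚ {y | ∃ a b c : ZMod 17, y = Zt t g a b c})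
    (h0 : del de z = 0) : ∃ q : ℚ, TensorProduct.lift m z =
      q • Tr (fun a b => m (t a b) (g b - g a)) 3 := by
  obtain ⟨c, rfl⟩ := span_Zt D rep rep_all z hz
  obtain ⟨Ψ, α, hΨ, hα⟩ := ex_psi (fun j => g (em j)) hind
  have hΨ' : ∀ u x : ZMod 17, u ≠ 0 → x ≠ 0 → Ψ (cl x) (g u) = kz u x - α (cl x) := by
    intro u x hu hx
    have h1 : g u = g (em (cl u)) := by
      rcases em_cl u hu with h | h
      · exact congrArg g h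
      · exact D.g' h
    rw [h1]
    have h2 := hΨ (cl u) (cl x)
    rw [h2]
    simp only [kz, cl_iff u x hu hx, hu, ne_eq, not_false_eq_true, true_and]
    push_cast
    rfl
  have E := eqn D hde rep rep_ne c h0 (fun x => Ψ (cl x)) (fun x => α (cl x)) hΨ'
  have Av := avg (fun x y z => ∑ i, c i * (EE (rep i) x y z : ℚ))
    (fun x y => ∑ i, c i * (BB (rep i) x y : ℚ)) (fun x => α (cl x))
    (fun x y z hx hy hz => E x y z hx hy hz)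
    (fun x y z v hv => by simp only [EE_mul _ _ _ _ _ hv]) (fun x y v hv => by simp only [BB_mul _ _ _ _ hv])
  have hS : ∀ f : Fin 8 → ℚ, ∑ v ∈ Finset.univ.erase (0 : ZMod 17), f (cl v) = 2 * ∑ x, f x := by
    intro f
    rw [← Finset.sum_fiberwise_of_maps_to (t := Finset.univ) (g := cl) (fun _ _ => Finset.mem_univ _),
      Finset.mul_sum]
    refine Finset.sum_congr rfl fun x _ => ?_
    rw [Finset.sum_congr rfl (g := fun _ => f x) (fun v hv => by rw [(Finset.mem_filter.mp hv).2]),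
      Finset.sum_const, card2, nsmul_eq_mul]
    norm_num
  have hS' : ∑ v ∈ Finset.univ.erase (0 : ZMod 17), g v = (2 : ℚ) • ∑ x, g (em x) := by
    rw [← Finset.sum_fiberwise_of_maps_to (t := Finset.univ) (g := cl) (fun _ _ => Finset.mem_univ _),
      Finset.smul_sum]
    refine Finset.sum_congr rfl fun x _ => ?_
    have : ∀ v ∈ (Finset.univ.erase (0 : ZMod 17)).filter (fun v => cl v = x), g v = g (em x) := by
      intro v hv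
      rw [Finset.mem_filter] at hv
      have hv0 : v ≠ 0 := by simpa using hv.1
      rw [← hv.2]
      rcases em_cl v hv0 with h | h
      · exact congrArg g h
      · exact D.g' h
    rw [Finset.sum_congr rfl this, Finset.sum_const, card2]
    exact (ofNat_smul_eq_nsmul ℚ 2 _).symm
  have hlift : TensorProduct.lift m (∑ i, c i • Zt t g (rep i).1 (rep i).2 1) =
      ∑ i, c i • yy t g m i := by
    rw [map_sum]
    exact Finset.sum_congr rfl fun i _ => map_smul _ _ _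
  rw [hlift]
  obtain ⟨τ0, hτ0⟩ : ∃ τ : ℚ, τ = ((1 : ℚ) * c 0 + (-1 : ℚ) * c 3 + (1 : ℚ) * c 5 + (1 : ℚ) * c 7 + (1 : ℚ) * c 8 + (1 : ℚ) * c 11 + (1 : ℚ) * c 13 + (-1 : ℚ) * c 14) := ⟨_, rfl⟩
  obtain ⟨τ1, hτ1⟩ : ∃ τ : ℚ, τ = ((1 : ℚ) * c 1 + (1 : ℚ) * c 2 + (-1 : ℚ) * c 4 + (1 : ℚ) * c 6 + (1 : ℚ) * c 9 + (-1 : ℚ) * c 10 + (-1 : ℚ) * c 12 + (1 : ℚ) * c 15) := ⟨_, rfl⟩
  have B_1_2 : ∑ i, c i * (BB (rep i) 1 2 : ℚ) = (2 : ℚ) * τ0 := by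
    rw [sumN]
    simp only [b_1_2, Matrix.cons_val, hτ0, hτ1]
    push_cast
    ring
  have B_1_3 : ∑ i, c i * (BB (rep i) 1 3 : ℚ) = (-2 : ℚ) * τ0 + (2 : ℚ) * τ1 := by
    rw [sumN]
    simp only [b_1_3, Matrix.cons_val, hτ0, hτ1]
    push_cast
    ring
  have B_1_4 : ∑ i, c i * (BB (rep i) 1 4 : ℚ) = 0 := by
    rw [sumN]
    simp only [b_1_4, Matrix.cons_val, hτ0, hτ1]
    push_cast
    ring
  have B_1_5 : ∑ i, c i * (BB (rep i) 1 5 : ℚ) = (-2 : ℚ) * τ0 + (-2 : ℚ) * τ1 := by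
    rw [sumN]
    simp only [b_1_5, Matrix.cons_val, hτ0, hτ1]
    push_cast
    ring
  have B_1_6 : ∑ i, c i * (BB (rep i) 1 6 : ℚ) = (2 : ℚ) * τ0 + (-2 : ℚ) * τ1 := by
    rw [sumN]
    simp only [b_1_6, Matrix.cons_val, hτ0, hτ1]
    push_cast
    ring
  have B_2_3 : ∑ i, c i * (BB (rep i) 2 3 : ℚ) = (2 : ℚ) * τ0 + (2 : ℚ) * τ1 := by
    rw [sumN]
    simp only [b_2_3, Matrix.cons_val, hτ0, hτ1]
    push_cast
    ring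
  have B_2_4 : ∑ i, c i * (BB (rep i) 2 4 : ℚ) = (2 : ℚ) * τ0 := by
    rw [sumN]
    simp only [b_2_4, Matrix.cons_val, hτ0, hτ1]
    push_cast
    ring
  have B_2_5 : ∑ i, c i * (BB (rep i) 2 5 : ℚ) = (2 : ℚ) * τ0 + (-2 : ℚ) * τ1 := by
    rw [sumN]
    simp only [b_2_5, Matrix.cons_val, hτ0, hτ1]
    push_cast
    ring
  have B_2_6 : ∑ i, c i * (BB (rep i) 2 6 : ℚ) = (-2 : ℚ) * τ0 + (2 : ℚ) * τ1 := by
    rw [sumN]
    simp only [b_2_6, Matrix.cons_val, hτ0, hτ1]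
    push_cast
    ring
  have B_2_7 : ∑ i, c i * (BB (rep i) 2 7 : ℚ) = (-2 : ℚ) * τ0 + (-2 : ℚ) * τ1 := by
    rw [sumN]
    simp only [b_2_7, Matrix.cons_val, hτ0, hτ1]
    push_cast
    ring
  have B_3_1 : ∑ i, c i * (BB (rep i) 3 1 : ℚ) = (2 : ℚ) * τ0 + (-2 : ℚ) * τ1 := by
    rw [sumN]
    simp only [b_3_1, Matrix.cons_val, hτ0, hτ1]
    push_cast
    ring
  have B_3_4 : ∑ i, c i * (BB (rep i) 3 4 : ℚ) = (2 : ℚ) * τ0 + (2 : ℚ) * τ1 := by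
    rw [sumN]
    simp only [b_3_4, Matrix.cons_val, hτ0, hτ1]
    push_cast
    ring
  have B_3_5 : ∑ i, c i * (BB (rep i) 3 5 : ℚ) = 0 := by
    rw [sumN]
    simp only [b_3_5, Matrix.cons_val, hτ0, hτ1]
    push_cast
    ring
  have B_3_6 : ∑ i, c i * (BB (rep i) 3 6 : ℚ) = (2 : ℚ) * τ0 := by
    rw [sumN]
    simp only [b_3_6, Matrix.cons_val, hτ0, hτ1]
    push_cast
    ring
  have B_4_1 : ∑ i, c i * (BB (rep i) 4 1 : ℚ) = 0 := by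
    rw [sumN]
    simp only [b_4_1, Matrix.cons_val, hτ0, hτ1]
    push_cast
    ring
  have B_5_1 : ∑ i, c i * (BB (rep i) 5 1 : ℚ) = (2 : ℚ) * τ0 + (2 : ℚ) * τ1 := by
    rw [sumN]
    simp only [b_5_1, Matrix.cons_val, hτ0, hτ1]
    push_cast
    ring
  have B_6_1 : ∑ i, c i * (BB (rep i) 6 1 : ℚ) = (-2 : ℚ) * τ0 + (2 : ℚ) * τ1 := by
    rw [sumN]
    simp only [b_6_1, Matrix.cons_val, hτ0, hτ1]
    push_cast
    ring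
  have B_7_1 : ∑ i, c i * (BB (rep i) 7 1 : ℚ) = (-2 : ℚ) * τ0 + (-2 : ℚ) * τ1 := by
    rw [sumN]
    simp only [b_7_1, Matrix.cons_val, hτ0, hτ1]
    push_cast
    ring
  have E_1_2_3 : ∑ i, c i * (EE (rep i) 1 2 3 : ℚ) = (2 : ℚ) * c 0 + (-2 : ℚ) * c 3 + (2 : ℚ) * c 5 + (2 : ℚ) * c 6 + (2 : ℚ) * c 10 := by
    rw [sumN]
    simp only [e_1_2_3, Matrix.cons_val]
    push_cast
    ring
  have E_1_2_4 : ∑ i, c i * (EE (rep i) 1 2 4 : ℚ) = (2 : ℚ) * c 7 + (-2 : ℚ) * c 9 + (-2 : ℚ) * c 10 + (-2 : ℚ) * c 14 := by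
    rw [sumN]
    simp only [e_1_2_4, Matrix.cons_val]
    push_cast
    ring
  have E_1_2_5 : ∑ i, c i * (EE (rep i) 1 2 5 : ℚ) = (-2 : ℚ) * c 6 + (2 : ℚ) * c 8 + (2 : ℚ) * c 9 + (2 : ℚ) * c 11 + (2 : ℚ) * c 13 := by
    rw [sumN]
    simp only [e_1_2_5, Matrix.cons_val]
    push_cast
    ring
  have E_1_2_6 : ∑ i, c i * (EE (rep i) 1 2 6 : ℚ) = (-2 : ℚ) * c 7 + (2 : ℚ) * c 9 + (-2 : ℚ) * c 12 := by
    rw [sumN]
    simp only [e_1_2_6, Matrix.cons_val]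
    push_cast
    ring
  have E_1_2_7 : ∑ i, c i * (EE (rep i) 1 2 7 : ℚ) = (2 : ℚ) * c 10 + (2 : ℚ) * c 12 + (2 : ℚ) * c 14 := by
    rw [sumN]
    simp only [e_1_2_7, Matrix.cons_val]
    push_cast
    ring
  have E_1_3_4 : ∑ i, c i * (EE (rep i) 1 3 4 : ℚ) = (2 : ℚ) * c 1 + (2 : ℚ) * c 2 + (-2 : ℚ) * c 4 + (2 : ℚ) * c 11 + (2 : ℚ) * c 14 + (-2 : ℚ) * c 15 := by
    rw [sumN]
    simp only [e_1_3_4, Matrix.cons_val]
    push_cast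
    ring
  have E_1_3_5 : ∑ i, c i * (EE (rep i) 1 3 5 : ℚ) = (2 : ℚ) * c 6 + (2 : ℚ) * c 7 + (-2 : ℚ) * c 11 + (2 : ℚ) * c 12 + (4 : ℚ) * c 15 := by
    rw [sumN]
    simp only [e_1_3_5, Matrix.cons_val]
    push_cast
    ring
  rcases hα with hα | ⟨hα1, hα2⟩
  · have Z : ∀ x y z : ZMod 17, x ≠ 0 → y ≠ 0 → z ≠ 0 → ∑ i, c i * (EE (rep i) x y z : ℚ) = 0 := by
      intro x y z hx hy hz
      rw [E x y z hx hy hz]
      simp only [hα, mul_zero, add_zero]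
    have F_1_2_3 := Z 1 2 3 (by decide) (by decide) (by decide)
    rw [E_1_2_3] at F_1_2_3
    have F_1_2_4 := Z 1 2 4 (by decide) (by decide) (by decide)
    rw [E_1_2_4] at F_1_2_4
    have F_1_2_5 := Z 1 2 5 (by decide) (by decide) (by decide)
    rw [E_1_2_5] at F_1_2_5
    have F_1_2_6 := Z 1 2 6 (by decide) (by decide) (by decide)
    rw [E_1_2_6] at F_1_2_6
    have F_1_2_7 := Z 1 2 7 (by decide) (by decide) (by decide)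
    rw [E_1_2_7] at F_1_2_7
    have F_1_3_4 := Z 1 3 4 (by decide) (by decide) (by decide)
    rw [E_1_3_4] at F_1_3_4
    have F_1_3_5 := Z 1 3 5 (by decide) (by decide) (by decide)
    rw [E_1_3_5] at F_1_3_5
    exact linN (yy t g m) (xx t g m) (rel0 D) (rel1 D) (rel2 D) (rel3 D) (rel4 D) (rel5 D) (rel6 D) (rel7 D) (rel8 D) (rel9 D) c
      (by linear_combination (1 / 2 : ℚ) * F_1_2_3)
      (by linear_combination (1 : ℚ) * F_1_2_3 + (1 : ℚ) * F_1_2_4 + (1 / 2 : ℚ) * F_1_2_6 + (1 : ℚ) * F_1_3_4 + (1 / 2 : ℚ) * F_1_3_5)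
      (by linear_combination (-1 / 2 : ℚ) * F_1_2_6)
      (by linear_combination (-1 : ℚ) * F_1_2_3 + (-1 : ℚ) * F_1_2_4 + (1 / 2 : ℚ) * F_1_2_5 + (-1 / 2 : ℚ) * F_1_2_6 + (-1 : ℚ) * F_1_3_4 + (-1 / 2 : ℚ) * F_1_3_5)
      (by linear_combination (-1 / 2 : ℚ) * F_1_2_3 + (-1 / 2 : ℚ) * F_1_2_4)
      (by linear_combination (1 / 2 : ℚ) * F_1_2_3 + (1 / 2 : ℚ) * F_1_2_4 + (1 / 2 : ℚ) * F_1_2_6 + (1 / 2 : ℚ) * F_1_3_4 + (1 / 2 : ℚ) * F_1_3_5)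
  · have Z : ∀ x y z : ZMod 17, x ≠ 0 → y ≠ 0 → z ≠ 0 →
        8 * ∑ i, c i * (EE (rep i) x y z : ℚ) = (∑ i, c i * (BB (rep i) x y : ℚ)) +
          (∑ i, c i * (BB (rep i) y z : ℚ)) + ∑ i, c i * (BB (rep i) z x : ℚ) := by
      intro x y z hx hy hz
      have := Av x y z hx hy hz
      rw [hS, hα1] at this
      push_cast at this
      linarith
    have F_1_2_3 := Z 1 2 3 (by decide) (by decide) (by decide)
    rw [E_1_2_3, B_1_2, B_2_3, B_3_1] at F_1_2_3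
    have F_1_2_4 := Z 1 2 4 (by decide) (by decide) (by decide)
    rw [E_1_2_4, B_1_2, B_2_4, B_4_1] at F_1_2_4
    have F_1_2_5 := Z 1 2 5 (by decide) (by decide) (by decide)
    rw [E_1_2_5, B_1_2, B_2_5, B_5_1] at F_1_2_5
    have F_1_2_6 := Z 1 2 6 (by decide) (by decide) (by decide)
    rw [E_1_2_6, B_1_2, B_2_6, B_6_1] at F_1_2_6
    have F_1_2_7 := Z 1 2 7 (by decide) (by decide) (by decide)
    rw [E_1_2_7, B_1_2, B_2_7, B_7_1] at F_1_2_7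
    have F_1_3_4 := Z 1 3 4 (by decide) (by decide) (by decide)
    rw [E_1_3_4, B_1_3, B_3_4, B_4_1] at F_1_3_4
    have F_1_3_5 := Z 1 3 5 (by decide) (by decide) (by decide)
    rw [E_1_3_5, B_1_3, B_3_5, B_5_1] at F_1_3_5
    by_cases hall : ∀ x, α x = 1 / 8
    · -- the sum of the `g` is zero
      have hg : ∑ v ∈ Finset.univ.erase (0 : ZMod 17), g v = 0 := by
        have h1 : (1 / 8 : ℚ) • ∑ x, g (em x) = 0 := by
          rw [Finset.smul_sum, ← hα2]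
          exact Finset.sum_congr rfl fun x _ => by rw [hall x]
        have h2 := (smul_eq_zero.mp h1).resolve_left (by norm_num)
        rw [hS', h2, smul_zero]
      have O0 := orb0 (m := m) D hg
      have O1 := orb1 (m := m) D hg
      obtain ⟨q, hq⟩ := linN (yy t g m) (xx t g m) (rel0 D) (rel1 D) (rel2 D) (rel3 D) (rel4 D) (rel5 D) (rel6 D) (rel7 D) (rel8 D) (rel9 D)
        (fun i => c i - (![(1 / 8 : ℚ) * τ0, (1 / 8 : ℚ) * τ1, (1 / 8 : ℚ) * τ1, (-1 / 8 : ℚ) * τ0, (-1 / 8 : ℚ) * τ1, (1 / 8 : ℚ) * τ0, (1 / 8 : ℚ) * τ1, (1 / 8 : ℚ) * τ0, (1 / 8 : ℚ) * τ0, (1 / 8 : ℚ) * τ1, (-1 / 8 : ℚ) * τ1, (1 / 8 : ℚ) * τ0, (-1 / 8 : ℚ) * τ1, (1 / 8 : ℚ) * τ0, (-1 / 8 : ℚ) * τ0, (1 / 8 : ℚ) * τ1] : Fin 16 → ℚ) i)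
        (by simp only [Matrix.cons_val]; linear_combination (1 / 16 : ℚ) * F_1_2_3)
        (by simp only [Matrix.cons_val]; linear_combination (1 / 8 : ℚ) * F_1_2_3 + (1 / 8 : ℚ) * F_1_2_4 + (1 / 16 : ℚ) * F_1_2_6 + (1 / 8 : ℚ) * F_1_3_4 + (1 / 16 : ℚ) * F_1_3_5)
        (by simp only [Matrix.cons_val]; linear_combination (-1 / 16 : ℚ) * F_1_2_6)
        (by simp only [Matrix.cons_val]; linear_combination (-1 / 8 : ℚ) * F_1_2_3 + (-1 / 8 : ℚ) * F_1_2_4 + (1 / 16 : ℚ) * F_1_2_5 + (-1 / 16 : ℚ) * F_1_2_6 + (-1 / 8 : ℚ) * F_1_3_4 + (-1 / 16 : ℚ) * F_1_3_5)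
        (by simp only [Matrix.cons_val]; linear_combination (-1 / 16 : ℚ) * F_1_2_3 + (-1 / 16 : ℚ) * F_1_2_4)
        (by simp only [Matrix.cons_val]; linear_combination (1 / 16 : ℚ) * F_1_2_3 + (1 / 16 : ℚ) * F_1_2_4 + (1 / 16 : ℚ) * F_1_2_6 + (1 / 16 : ℚ) * F_1_3_4 + (1 / 16 : ℚ) * F_1_3_5)
      refine ⟨q, ?_⟩
      change _ = q • xx t g m
      rw [← hq, sumN, sumN]
      simp only [Matrix.cons_val]
      linear_combination (norm := module) (τ0 * 1 / 8 : ℚ) • O0 + (τ1 * 1 / 8 : ℚ) • O1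
    · -- the Plücker relations
      push Not at hall
      obtain ⟨z₀, hz₀⟩ := hall
      have PL := plucker (fun x y : Fin 8 => ∑ i, c i * (BB (rep i) (em x) (em y) : ℚ))
        (fun x => α x - 1 / 8) (by
          intro x y z
          have h1 := E (em x) (em y) (em z) (em_ne x) (em_ne y) (em_ne z)
          have h2 := Z (em x) (em y) (em z) (em_ne x) (em_ne y) (em_ne z)
          simp only [cl_em] at h1
          rw [h1] at h2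
          linarith)
        (by
          intro x y
          simp only [BB_swap _ (em x) (em y), Int.cast_neg, mul_neg, Finset.sum_neg_distrib]) z₀
        (sub_ne_zero.mpr hz₀)
      have P0 := PL 0 1 2 3
      simp only [em, Matrix.cons_val] at P0
      rw [B_1_2, B_3_4, B_1_3, B_2_4, B_1_4, B_2_3] at P0
      have P1 := PL 0 1 2 4
      simp only [em, Matrix.cons_val] at P1
      rw [B_1_2, B_3_5, B_1_3, B_2_5, B_1_5, B_2_3] at P1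
      have P2 := PL 0 1 2 5
      simp only [em, Matrix.cons_val] at P2
      rw [B_1_2, B_3_6, B_1_3, B_2_6, B_1_6, B_2_3] at P2
      have T0 : τ0 = 0 := by
        have h : τ0 ^ 2 = 0 := by
          linear_combination (1 / 8 : ℚ) * P0
        exact pow_eq_zero_iff (two_ne_zero) |>.mp h
      have T1 : τ1 = 0 := by
        have h : τ1 ^ 2 = 0 := by
          linear_combination (1 / 16 : ℚ) * P0 + (-1 / 16 : ℚ) * P1 + (-1 / 8 : ℚ) * P2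
        exact pow_eq_zero_iff (two_ne_zero) |>.mp h
      exact linN (yy t g m) (xx t g m) (rel0 D) (rel1 D) (rel2 D) (rel3 D) (rel4 D) (rel5 D) (rel6 D) (rel7 D) (rel8 D) (rel9 D) c
        (by linear_combination (1 / 16 : ℚ) * F_1_2_3 + (3 / 8 : ℚ) * T0)
        (by linear_combination (1 / 8 : ℚ) * F_1_2_3 + (1 / 8 : ℚ) * F_1_2_4 + (1 / 16 : ℚ) * F_1_2_6 + (1 / 8 : ℚ) * F_1_3_4 + (1 / 16 : ℚ) * F_1_3_5 + (9 / 8 : ℚ) * T0 + (1 : ℚ) * T1)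
        (by linear_combination (-1 / 16 : ℚ) * F_1_2_6 + (1 / 8 : ℚ) * T0 + (-1 / 4 : ℚ) * T1)
        (by linear_combination (-1 / 8 : ℚ) * F_1_2_3 + (-1 / 8 : ℚ) * F_1_2_4 + (1 / 16 : ℚ) * F_1_2_5 + (-1 / 16 : ℚ) * F_1_2_6 + (-1 / 8 : ℚ) * F_1_3_4 + (-1 / 16 : ℚ) * F_1_3_5 + (-3 / 4 : ℚ) * T0 + (-1 : ℚ) * T1)
        (by linear_combination (-1 / 16 : ℚ) * F_1_2_3 + (-1 / 16 : ℚ) * F_1_2_4 + (-5 / 8 : ℚ) * T0)
        (by linear_combination (1 / 16 : ℚ) * F_1_2_3 + (1 / 16 : ℚ) * F_1_2_4 + (1 / 16 : ℚ) * F_1_2_6 + (1 / 16 : ℚ) * F_1_3_4 + (1 / 16 : ℚ) * F_1_3_5 + (1 / 2 : ℚ) * T0 + (3 / 4 : ℚ) * T1)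

end main

end Pool.Agent.K4Tr.P17
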