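import Pool.Agent.Lib_helper54.K4M.Tr17
import Pool.Agent.Lib_helper54.K4M.Tr19

set_option autoImplicit false
set_option linter.unusedSectionVars false
set_option linter.unusedVariables false

/-!
Orders `17` and `19` on a curve: every closed element of the span of the traces
`∑_u t(ua, ub) ⊗ g(uc)` is a multiple of the trace of the `ξ(uP, u c₀ P)`.
-/

open Pool.Agent.K4Par Pool.Agent.K4Fin Pool.Agent.K4Closed Pool.Agent.K4Tr
open scoped TensorProduct

namespace K4M

section tr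

variable {A B G : Type*} [AddCommGroup A] [AddCommGroup B] [Module ℚ B] [AddCommGroup G]
  [Module ℚ G]

lemma trace_Zt {p : ℕ} [Fact p.Prime] {P : A} {f : ZMod p →+ A}
    (hf : ∀ k : ℤ, f (k : ZMod p) = k • P) (t : A → A → B) (g : A → G) (a b c : ℤ) :
    ∑ u ∈ Finset.range p, t ((u * a : ℤ) • P) ((u * b : ℤ) • P) ⊗ₜ[ℚ] g ((u * c : ℤ) • P) =
      Zt (fun a b => t (f a) (f b)) (fun a => g (f a)) (a : ZMod p) (b : ZMod p) (c : ZMod p) := by
  unfold Zt
  symm
  refine Finset.sum_bij' (fun (u : ZMod p) _ => (u.val : ℕ)) (fun (u : ℕ) _ => (u : ZMod p))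
    ?_ ?_ ?_ ?_ ?_
  · intro u _; exact Finset.mem_range.mpr (ZMod.val_lt u)
  · intro u _; exact Finset.mem_univ _
  · intro u _; simp
  · intro u hu; exact ZMod.val_cast_of_lt (Finset.mem_range.mp hu)
  · intro u _
    have h1 : ∀ d : ℤ, f (u * (d : ZMod p)) = ((u.val : ℤ) * d) • P := by
      intro d
      rw [← hf]
      congr 1
      push_cast
      rw [ZMod.natCast_zmod_val]
    simp only [h1]

end tr

variable {F : Type*} [Field F] [CharZero F] [DecidableEq F] {W : WeierstrassCurve.Affine F}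
  {A : AddSubgroup W.Point} [Fintype A]

lemma de_curve (hA : (Nat.card A).Coprime 6) {g : A → FT F} (hg : IsG4 A g) {p : ℕ}
    (f : ZMod p →+ A) (a b : ZMod p) : de F (tA A (f a) (f b)) =
      ExteriorAlgebra.ι ℚ (g (f a)) * ExteriorAlgebra.ι ℚ (g (f b)) +
      ExteriorAlgebra.ι ℚ (g (f b)) * ExteriorAlgebra.ι ℚ (g (f (a + b))) +
      ExteriorAlgebra.ι ℚ (g (f (a + b))) * ExteriorAlgebra.ι ℚ (g (f a)) := by
  rw [map_add]
  exact final_de hA hg (f a) (f b)

/-- **Order seventeen.** -/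
theorem closed_seventeen (hA : (Nat.card A).Coprime 6) {g : A → FT F} (hg : IsG4 A g) (P : A)
    (hP : 17 • P = 0)
    (hind : LinearIndependent ℚ (fun k : Fin 7 => g ((k + 2 : ℕ) • P) - g P))
    (z : B2 F ⊗[ℚ] FT F)
    (hz : z ∈ Submodule.span ℚ {y | ∃ a b c : ℤ, y = ∑ u ∈ Finset.range 17,
      tA A ((u * a : ℤ) • P) ((u * b : ℤ) • P) ⊗ₜ[ℚ] g ((u * c : ℤ) • P)})
    (h0 : dH F (Submodule.Quotient.mk z : HK F) = 0) :
    ∃ q : ℚ, (Submodule.Quotient.mk z : HK F) = q • TrP (xi (hkL F) (tA A) g) 17 P 3 := by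
  obtain ⟨f, hf⟩ := exists_hom 17 P hP
  have D := (dat_curve hA hg).comp f
  have fn : ∀ n : ℕ, f (n : ZMod 17) = n • P := by
    intro n
    have := hf n
    rw [← natCast_zsmul, ← this]; norm_cast
  have hind' : LinearIndependent ℚ
      (fun k : Fin 7 => g (f (P17.em k.succ)) - g (f (P17.em 0))) := by
    have e : ∀ k : Fin 7, P17.em k.succ = ((k.val + 2 : ℕ) : ZMod 17) := by decide +kernel
    have e0 : P17.em 0 = ((1 : ℕ) : ZMod 17) := by decide +kernel
    have : (fun k : Fin 7 => g (f (P17.em k.succ)) - g (f (P17.em 0))) =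
        fun k : Fin 7 => g ((k + 2 : ℕ) • P) - g P := by
      funext k
      rw [e, e0, fn, fn, one_smul]
    rw [this]; exact hind
  have hz' : z ∈ Submodule.span ℚ {y | ∃ a b c : ZMod 17, y =
      Zt (fun a b => tA A (f a) (f b)) (fun a => g (f a)) a b c} := by
    refine Submodule.span_mono ?_ hz
    rintro y ⟨a, b, c, rfl⟩
    exact ⟨(a : ZMod 17), (b : ZMod 17), (c : ZMod 17), trace_Zt hf (tA A) g a b c⟩
  obtain ⟨q, hq⟩ := P17.main D (de := de F) (de_curve hA hg f) hind' z hz' h0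
  refine ⟨q, ?_⟩
  rw [← lift_hkL, hq, TrP_eq hf]
  norm_cast

/-- **Order nineteen.** -/
theorem closed_nineteen (hA : (Nat.card A).Coprime 6) {g : A → FT F} (hg : IsG4 A g) (P : A)
    (hP : 19 • P = 0)
    (hind : LinearIndependent ℚ (fun k : Fin 8 => g ((k + 2 : ℕ) • P) - g P))
    (z : B2 F ⊗[ℚ] FT F)
    (hz : z ∈ Submodule.span ℚ {y | ∃ a b c : ℤ, y = ∑ u ∈ Finset.range 19,
      tA A ((u * a : ℤ) • P) ((u * b : ℤ) • P) ⊗ₜ[ℚ] g ((u * c : ℤ) • P)})
    (h0 : dH F (Submodule.Quotient.mk z : HK F) = 0) :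
    ∃ q : ℚ, (Submodule.Quotient.mk z : HK F) = q • TrP (xi (hkL F) (tA A) g) 19 P 4 := by
  obtain ⟨f, hf⟩ := exists_hom 19 P hP
  have D := (dat_curve hA hg).comp f
  have fn : ∀ n : ℕ, f (n : ZMod 19) = n • P := by
    intro n
    have := hf n
    rw [← natCast_zsmul, ← this]; norm_cast
  have hind' : LinearIndependent ℚ
      (fun k : Fin 8 => g (f (P19.em k.succ)) - g (f (P19.em 0))) := by
    have e : ∀ k : Fin 8, P19.em k.succ = ((k.val + 2 : ℕ) : ZMod 19) := by decide +kernel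
    have e0 : P19.em 0 = ((1 : ℕ) : ZMod 19) := by decide +kernel
    have : (fun k : Fin 8 => g (f (P19.em k.succ)) - g (f (P19.em 0))) =
        fun k : Fin 8 => g ((k + 2 : ℕ) • P) - g P := by
      funext k
      rw [e, e0, fn, fn, one_smul]
    rw [this]; exact hind
  have hz' : z ∈ Submodule.span ℚ {y | ∃ a b c : ZMod 19, y =
      Zt (fun a b => tA A (f a) (f b)) (fun a => g (f a)) a b c} := by
    refine Submodule.span_mono ?_ hz
    rintro y ⟨a, b, c, rfl⟩
    exact ⟨(a : ZMod 19), (b : ZMod 19), (c : ZMod 19), trace_Zt hf (tA A) g a b c⟩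
  obtain ⟨q, hq⟩ := P19.main D (de := de F) (de_curve hA hg f) hind' z hz' h0
  refine ⟨q, ?_⟩
  rw [← lift_hkL, hq, TrP_eq hf]
  norm_cast

end K4M
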