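import Pool.Agent.Lib_helper66.K4M.Closed11Curve
import Pool.Agent.Lib_helper2.K4.Bridge

set_option autoImplicit false
set_option linter.unusedSectionVars false
set_option linter.unusedVariables false

/-!
Closed elements in the span of the traces `∑_u t(ua, ub) ⊗ g(uc)`: the part common to all primes.
-/

namespace Pool.Agent.K4Tr

open Pool.Agent.K4Fin Pool.Agent.K4Closed ExteriorAlgebra
open scoped TensorProduct

section lin

variable {G : Type*} [AddCommGroup G] [Module ℚ G]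

/-- coordinates attached to a family whose differences are independent -/
lemma ex_psi {k : ℕ} (v : Fin (k + 1) → G)
    (h : LinearIndependent ℚ (fun j : Fin k => v j.succ - v 0)) :
    ∃ (Ψ : Fin (k + 1) → G →ₗ[ℚ] ℚ) (α : Fin (k + 1) → ℚ),
      (∀ u x, Ψ x (v u) = (if u = x then 1 else 0) - α x) ∧
      ((∀ x, α x = 0) ∨ (∑ x, α x = 1 ∧ ∑ x, α x • v x = 0)) := by
  by_cases h1 : v 0 ∈ Submodule.span ℚ (Set.range fun j : Fin k => v j.succ - v 0)
  · obtain ⟨l, hl⟩ := (Submodule.mem_span_range_iff_exists_fun ℚ).mp h1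
    obtain ⟨L, hL⟩ := exists_coord h
    have e0 : ∀ j, L (v 0) j = l j := by
      intro j
      rw [← hl, map_sum]
      simp only [map_smul, hL, Finset.sum_apply, Pi.smul_apply, Pi.single_apply, smul_eq_mul,
        mul_ite, mul_one, mul_zero, Finset.sum_ite_eq, Finset.mem_univ, if_true]
    have e1 : ∀ i j, L (v i.succ) j = l j + if i = j then 1 else 0 := by
      intro i j
      have h2 := congrFun (hL i) j
      rw [map_sub, Pi.sub_apply, e0, Pi.single_apply] at h2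
      rw [sub_eq_iff_eq_add] at h2
      rw [h2, add_comm]
      simp [eq_comm]
    refine ⟨Fin.cons (-∑ j, (LinearMap.proj j).comp L) fun j => (LinearMap.proj j).comp L,
      Fin.cons (1 + ∑ j, l j) fun j => - l j, ?_, Or.inr ⟨?_, ?_⟩⟩
    · intro u x
      refine Fin.cases ?_ (fun u => ?_) u <;> refine Fin.cases ?_ (fun x => ?_) x
      · simp [LinearMap.sum_apply, e0]
      · simp [e0, (Fin.succ_ne_zero _).symm]
      · simp [LinearMap.sum_apply, e1, Finset.sum_add_distrib, Fin.succ_ne_zero]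
        ring
      · simp [e1]
        ring
    · rw [Fin.sum_univ_succ]
      simp
    · rw [Fin.sum_univ_succ]
      simp only [Fin.cons_zero, Fin.cons_succ]
      have : v 0 = ∑ j, l j • (v j.succ - v 0) := hl.symm
      simp only [smul_sub, Finset.sum_sub_distrib, ← Finset.sum_smul] at this
      rw [add_smul, one_smul]
      nth_rw 1 [this]
      simp only [neg_smul, Finset.sum_neg_distrib]
      abel
  · have hi : LinearIndependent ℚ v := by
      rw [Fintype.linearIndependent_iff]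
      intro a ha
      have hE : ∑ k, a k • v k = (∑ k, a k) • v 0 + ∑ j : Fin k, a j.succ • (v j.succ - v 0) := by
        rw [Fin.sum_univ_succ, Fin.sum_univ_succ]
        simp only [smul_sub, Finset.sum_sub_distrib, ← Finset.sum_smul, add_smul]
        abel
      rw [hE] at ha
      have hs : (∑ k, a k) = 0 := by
        by_contra hs
        apply h1
        have : v 0 = -(∑ k, a k)⁻¹ • ∑ j : Fin k, a j.succ • (v j.succ - v 0) := by
          have h2 : ∑ j : Fin k, a j.succ • (v j.succ - v 0) = -((∑ k, a k) • v 0) :=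
            (neg_eq_of_add_eq_zero_right ha).symm
          rw [h2, smul_neg, neg_smul, neg_neg, smul_smul, inv_mul_cancel₀ hs, one_smul]
        have key : -(∑ k, a k)⁻¹ • ∑ j : Fin k, a j.succ • (v j.succ - v 0) ∈
            Submodule.span ℚ (Set.range fun j : Fin k => v j.succ - v 0) := by
          refine Submodule.smul_mem _ _ (Submodule.sum_mem _ fun j _ => Submodule.smul_mem _ _ ?_)
          exact Submodule.subset_span ⟨j, rfl⟩
        rw [← this] at key
        exact key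
      rw [hs, zero_smul, zero_add] at ha
      have h3 := (Fintype.linearIndependent_iff.mp h) (fun j => a j.succ) ha
      rw [Fin.sum_univ_succ] at hs
      simp only [h3, Finset.sum_const_zero, add_zero] at hs
      intro i
      refine Fin.cases hs (fun j => h3 j) i
    obtain ⟨L, hL⟩ := exists_coord hi
    refine ⟨fun j => (LinearMap.proj j).comp L, 0, ?_, Or.inl fun x => rfl⟩
    intro u x
    simp [hL, Pi.single_apply, eq_comm]

/-- The quadratic relations of a decomposable form. -/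
lemma plucker {ι' : Type*} (β : ι' → ι' → ℚ) (κ : ι' → ℚ)
    (h : ∀ x y z, β x y * κ z + β y z * κ x + β z x * κ y = 0) (hs : ∀ x y, β y x = - β x y)
    (z₀ : ι') (hz : κ z₀ ≠ 0) (x y w v : ι') :
    β x y * β w v - β x w * β y v + β x v * β y w = 0 := by
  have key : ∀ x y, β x y = β x z₀ / κ z₀ * κ y - β y z₀ / κ z₀ * κ x := by
    intro x y
    have h1 := h x y z₀
    rw [hs x z₀] at h1
    field_simp
    linarith
  rw [key x y, key w v, key x w, key y v, key x v, key y w]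
  ring

end lin

section gen

variable {p : ℕ} [hp : Fact p.Prime] {B G H : Type*} [AddCommGroup B] [Module ℚ B]
  [AddCommGroup G] [Module ℚ G] [AddCommGroup H] [Module ℚ H]
  {t : ZMod p → ZMod p → B} {g : ZMod p → G} {m : B →ₗ[ℚ] G →ₗ[ℚ] H}

/-- the traces -/
noncomputable def Zt (t : ZMod p → ZMod p → B) (g : ZMod p → G) (a b c : ZMod p) : B ⊗[ℚ] G :=
  ∑ u : ZMod p, t (u * a) (u * b) ⊗ₜ[ℚ] g (u * c)

lemma Zt_mul (a b c v : ZMod p) (hv : v ≠ 0) : Zt t g (v * a) (v * b) (v * c) = Zt t g a b c := by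
  unfold Zt
  rw [← Equiv.sum_comp (Equiv.mulRight₀ v hv) (fun u => t (u * a) (u * b) ⊗ₜ[ℚ] g (u * c))]
  refine Finset.sum_congr rfl fun u _ => ?_
  show _ = t (u * v * a) (u * v * b) ⊗ₜ[ℚ] g (u * v * c)
  simp only [mul_assoc]

/-- the symmetries of `t` -/
def act (j : Fin 12) (q : ZMod p × ZMod p) : ZMod p × ZMod p :=
  ![(q.1, q.2), (q.2, -q.1 - q.2), (-q.1 - q.2, q.1), (q.2, q.1), (-q.1 - q.2, q.2),
    (q.1, -q.1 - q.2), (-q.1, -q.2), (-q.2, q.1 + q.2), (q.1 + q.2, -q.1), (-q.2, -q.1),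
    (q.1 + q.2, -q.2), (-q.1, q.1 + q.2)] j

/-- the signs of the symmetries of `t` -/
def sgn : Fin 12 → ℤ := ![1, 1, 1, -1, -1, -1, 1, 1, 1, -1, -1, -1]

lemma t_act (D : Dat t g m) (j : Fin 12) (q : ZMod p × ZMod p) :
    t (act j q).1 (act j q).2 = sgn j • t q.1 q.2 := by
  obtain ⟨a, b⟩ := q
  have r1 : t b (-a - b) = t a b := D.rot a b
  have r2 : t (-a - b) a = t a b := by rw [← r1]; exact D.rot' (by abel)
  have s0 : t b a = - t a b := D.swap a b
  have s1 : t (-a - b) b = - t a b := by rw [D.swap b (-a - b), r1]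
  have s2 : t a (-a - b) = - t a b := by rw [D.swap (-a - b) a, r2]
  have n : ∀ x y : ZMod p, t (-x) (-y) = t x y := D.even
  have e : a + b = -(-a - b) := by abel
  fin_cases j
  · show t a b = (1 : ℤ) • t a b
    rw [one_smul]
  · show t b (-a - b) = (1 : ℤ) • t a b
    rw [one_smul, r1]
  · show t (-a - b) a = (1 : ℤ) • t a b
    rw [one_smul, r2]
  · show t b a = (-1 : ℤ) • t a b
    rw [neg_one_smul, s0]
  · show t (-a - b) b = (-1 : ℤ) • t a b
    rw [neg_one_smul, s1]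
  · show t a (-a - b) = (-1 : ℤ) • t a b
    rw [neg_one_smul, s2]
  · show t (-a) (-b) = (1 : ℤ) • t a b
    rw [one_smul, n]
  · show t (-b) (a + b) = (1 : ℤ) • t a b
    rw [one_smul, e, n, r1]
  · show t (a + b) (-a) = (1 : ℤ) • t a b
    rw [one_smul, e, n, r2]
  · show t (-b) (-a) = (-1 : ℤ) • t a b
    rw [neg_one_smul, n, s0]
  · show t (a + b) (-b) = (-1 : ℤ) • t a b
    rw [neg_one_smul, e, n, s1]
  · show t (-a) (a + b) = (-1 : ℤ) • t a b
    rw [neg_one_smul, e, n, s2]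

lemma act_mul (u : ZMod p) (j : Fin 12) (q : ZMod p × ZMod p) :
    act j (u * q.1, u * q.2) = (u * (act j q).1, u * (act j q).2) := by
  fin_cases j <;> simp [act, mul_add, mul_sub, mul_neg]

lemma Zt_act (D : Dat t g m) (j : Fin 12) (q : ZMod p × ZMod p) (c : ZMod p) :
    Zt t g (act j q).1 (act j q).2 c = sgn j • Zt t g q.1 q.2 c := by
  unfold Zt
  rw [Finset.smul_sum]
  refine Finset.sum_congr rfl fun u _ => ?_
  have h := t_act D j (u * q.1, u * q.2)
  rw [act_mul] at h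
  rw [h]
  rfl

lemma Zt_rep (D : Dat t g m) (a b c : ZMod p) (s : ℤ) (q : ZMod p × ZMod p)
    (h : ∃ j : Fin 12, c ≠ 0 ∧ a = c * (act j q).1 ∧ b = c * (act j q).2 ∧ s = sgn j) :
    Zt t g a b c = s • Zt t g q.1 q.2 1 := by
  obtain ⟨j, hc, ha, hb, hs⟩ := h
  rw [ha, hb, hs, ← Zt_act D]
  have h1 := Zt_mul (t := t) (g := g) (act j q).1 (act j q).2 1 c hc
  rw [mul_one] at h1
  exact h1

lemma Zt_deg (D : Dat t g m) (a b c : ZMod p)
    (h : ∃ j : Fin 12, sgn j = -1 ∧ act j (a, b) = (a, b)) : Zt t g a b c = 0 := by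
  obtain ⟨j, hs, h⟩ := h
  have h1 := Zt_act D j (a, b) c
  rw [h, hs, neg_one_smul] at h1
  exact ManinSym.eq_zero_of_neg h1

lemma Zt_zero (D : Dat t g m) (a b : ZMod p) : Zt t g a b 0 = 0 := by
  unfold Zt
  refine Finset.sum_eq_zero fun u _ => ?_
  rw [mul_zero, D.zero, TensorProduct.tmul_zero]

/-- Kronecker symbol for the classes modulo sign -/
def kz (u x : ZMod p) : ℤ := if u ≠ 0 ∧ (u = x ∨ u = -x) then 1 else 0

/-- determinants of order three -/
def m3 (u v w x y z : ZMod p) : ℤ :=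
  kz u x * kz v y * kz w z - kz u x * kz v z * kz w y - kz u y * kz v x * kz w z
    + kz u y * kz v z * kz w x + kz u z * kz v x * kz w y - kz u z * kz v y * kz w x

/-- determinants of order two -/
def m2 (u v x y : ZMod p) : ℤ := kz u x * kz v y - kz u y * kz v x

/-- coordinates of `δt(a,b) ∧ g_c` -/
def T0 (a b c x y z : ZMod p) : ℤ := m3 a b c x y z + m3 b (a + b) c x y z + m3 (a + b) a c x y z

/-- coordinates of `δt(a,b)` -/
def B0 (a b x y : ZMod p) : ℤ := m2 a b x y + m2 b (a + b) x y + m2 (a + b) a x y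

/-- coordinates of the traces of `δt(a,b) ∧ g_1` -/
def EE (q : ZMod p × ZMod p) (x y z : ZMod p) : ℤ :=
  ∑ u : ZMod p, T0 (u * q.1) (u * q.2) u x y z

/-- coordinates of the traces of `δt(a,b)` -/
def BB (q : ZMod p × ZMod p) (x y : ZMod p) : ℤ := ∑ u : ZMod p, B0 (u * q.1) (u * q.2) x y

lemma kz_zero (x : ZMod p) : kz 0 x = 0 := by simp [kz]

lemma kz_mul (u x v : ZMod p) (hv : v ≠ 0) : kz (u * v) (v * x) = kz u x := by
  have h1 : (u * v = v * x) ↔ u = x := by
    rw [mul_comm u v]; exact mul_right_inj' hv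
  have h2 : (u * v = -(v * x)) ↔ u = -x := by
    rw [mul_comm u v, ← mul_neg]; exact mul_right_inj' hv
  have h3 : (u * v ≠ 0) ↔ u ≠ 0 := by
    simp [hv]
  simp only [kz, h1, h2, h3]

lemma EE_mul (q : ZMod p × ZMod p) (x y z v : ZMod p) (hv : v ≠ 0) :
    EE q (v * x) (v * y) (v * z) = EE q x y z := by
  unfold EE
  rw [← Equiv.sum_comp (Equiv.mulRight₀ v hv)]
  refine Finset.sum_congr rfl fun u _ => ?_
  show T0 (u * v * q.1) (u * v * q.2) (u * v) _ _ _ = _
  have e1 : u * v * q.1 = (u * q.1) * v := by ring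
  have e2 : u * v * q.2 = (u * q.2) * v := by ring
  have e3 : ∀ a b : ZMod p, a * v + b * v = (a + b) * v := fun a b => by ring
  simp only [T0, m3, e1, e2, e3, kz_mul _ _ _ hv]

lemma BB_mul (q : ZMod p × ZMod p) (x y v : ZMod p) (hv : v ≠ 0) :
    BB q (v * x) (v * y) = BB q x y := by
  unfold BB
  rw [← Equiv.sum_comp (Equiv.mulRight₀ v hv)]
  refine Finset.sum_congr rfl fun u _ => ?_
  show B0 (u * v * q.1) (u * v * q.2) _ _ = _
  have e1 : u * v * q.1 = (u * q.1) * v := by ring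
  have e2 : u * v * q.2 = (u * q.2) * v := by ring
  have e3 : ∀ a b : ZMod p, a * v + b * v = (a + b) * v := fun a b => by ring
  simp only [B0, m2, e1, e2, e3, kz_mul _ _ _ hv]

lemma BB_swap (q : ZMod p × ZMod p) (x y : ZMod p) : BB q y x = - BB q x y := by
  unfold BB
  rw [← Finset.sum_neg_distrib]
  refine Finset.sum_congr rfl fun u _ => ?_
  simp only [B0, m2]
  ring

/-- the functional on the terms of the trace -/
lemma T_eq (Ψ : ZMod p → G →ₗ[ℚ] ℚ) (α : ZMod p → ℚ)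
    (hΨ : ∀ u x, u ≠ 0 → x ≠ 0 → Ψ x (g u) = kz u x - α x) (g0 : g 0 = 0) (a b : ZMod p)
    (ha : a ≠ 0) (hb : b ≠ 0) (hab : a + b ≠ 0) (u x y z : ZMod p) (hx : x ≠ 0) (hy : y ≠ 0)
    (hz : z ≠ 0) :
    Matrix.det ![LinearMap.pi ![Ψ x, Ψ y, Ψ z] (g (u * a)), LinearMap.pi ![Ψ x, Ψ y, Ψ z]
        (g (u * b)), LinearMap.pi ![Ψ x, Ψ y, Ψ z] (g u)] +
      Matrix.det ![LinearMap.pi ![Ψ x, Ψ y, Ψ z] (g (u * b)), LinearMap.pi ![Ψ x, Ψ y, Ψ z]
        (g (u * a + u * b)), LinearMap.pi ![Ψ x, Ψ y, Ψ z] (g u)] +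
      Matrix.det ![LinearMap.pi ![Ψ x, Ψ y, Ψ z] (g (u * a + u * b)),
        LinearMap.pi ![Ψ x, Ψ y, Ψ z] (g (u * a)), LinearMap.pi ![Ψ x, Ψ y, Ψ z] (g u)] =
    (T0 (u * a) (u * b) u x y z : ℚ) - (B0 (u * a) (u * b) x y * α z + B0 (u * a) (u * b) y z * α x +
      B0 (u * a) (u * b) z x * α y) := by
  have d : ∀ a b c : Fin 3 → ℚ, Matrix.det ![a, b, c] = a 0 * b 1 * c 2 - a 0 * b 2 * c 1
      - a 1 * b 0 * c 2 + a 1 * b 2 * c 0 + a 2 * b 0 * c 1 - a 2 * b 1 * c 0 :=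
    fun a b c => Matrix.det_fin_three (R := ℚ) ![a, b, c]
  have q0 : ∀ w : G, LinearMap.pi ![Ψ x, Ψ y, Ψ z] w 0 = Ψ x w := fun w => rfl
  have q1 : ∀ w : G, LinearMap.pi ![Ψ x, Ψ y, Ψ z] w 1 = Ψ y w := fun w => rfl
  have q2 : ∀ w : G, LinearMap.pi ![Ψ x, Ψ y, Ψ z] w 2 = Ψ z w := fun w => rfl
  rw [d, d, d]
  simp only [q0, q1, q2]
  by_cases hu : u = 0
  · subst hu
    simp only [zero_mul, add_zero, g0, map_zero, T0, B0, m3, m2, kz_zero]
    norm_num
  · have h1 : u * a ≠ 0 := mul_ne_zero hu ha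
    have h2 : u * b ≠ 0 := mul_ne_zero hu hb
    have h3 : u * a + u * b ≠ 0 := by rw [← mul_add]; exact mul_ne_zero hu hab
    rw [hΨ _ _ h1 hx, hΨ _ _ h1 hy, hΨ _ _ h1 hz, hΨ _ _ h2 hx, hΨ _ _ h2 hy, hΨ _ _ h2 hz,
      hΨ _ _ h3 hx, hΨ _ _ h3 hy, hΨ _ _ h3 hz, hΨ _ _ hu hx, hΨ _ _ hu hy, hΨ _ _ hu hz]
    simp only [T0, B0, m3, m2]
    push_cast
    ring

/-- the equations of the closed elements -/
lemma eqn {ι' : Type*} [Fintype ι'] (D : Dat t g m) {de : B →ₗ[ℚ] ExteriorAlgebra ℚ G}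
    (hde : ∀ a b, de (t a b) = ι ℚ (g a) * ι ℚ (g b) + ι ℚ (g b) * ι ℚ (g (a + b)) +
      ι ℚ (g (a + b)) * ι ℚ (g a)) (q : ι' → ZMod p × ZMod p)
    (hq : ∀ i, (q i).1 ≠ 0 ∧ (q i).2 ≠ 0 ∧ (q i).1 + (q i).2 ≠ 0) (c : ι' → ℚ)
    (h0 : del de (∑ i, c i • Zt t g (q i).1 (q i).2 1) = 0)
    (Ψ : ZMod p → G →ₗ[ℚ] ℚ) (α : ZMod p → ℚ)
    (hΨ : ∀ u x, u ≠ 0 → x ≠ 0 → Ψ x (g u) = kz u x - α x) (x y z : ZMod p) (hx : x ≠ 0)
    (hy : y ≠ 0) (hz : z ≠ 0) :
    ∑ i, c i * (EE (q i) x y z : ℚ) =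
      (∑ i, c i * (BB (q i) x y : ℚ)) * α z + (∑ i, c i * (BB (q i) y z : ℚ)) * α x +
      (∑ i, c i * (BB (q i) z x : ℚ)) * α y := by
  have h1 := congrArg (dfun (LinearMap.pi ![Ψ x, Ψ y, Ψ z])) h0
  have h2 : ∀ i, dfun (LinearMap.pi ![Ψ x, Ψ y, Ψ z]) (del de (Zt t g (q i).1 (q i).2 1)) =
      (EE (q i) x y z : ℚ) - ((BB (q i) x y : ℚ) * α z + (BB (q i) y z : ℚ) * α x +
      (BB (q i) z x : ℚ) * α y) := by
    intro i
    obtain ⟨ha, hb, hab⟩ := hq i
    unfold Zt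
    rw [map_sum, map_sum]
    have : ∀ u : ZMod p, dfun (LinearMap.pi ![Ψ x, Ψ y, Ψ z])
        (del de (t (u * (q i).1) (u * (q i).2) ⊗ₜ[ℚ] g (u * 1))) =
        (T0 (u * (q i).1) (u * (q i).2) u x y z : ℚ) - (B0 (u * (q i).1) (u * (q i).2) x y * α z +
          B0 (u * (q i).1) (u * (q i).2) y z * α x + B0 (u * (q i).1) (u * (q i).2) z x * α y) := by
      intro u
      rw [del_tmul, hde, mul_one, add_mul, add_mul, map_add, map_add, dfun_mul, dfun_mul, dfun_mul]
      exact T_eq Ψ α hΨ D.zero _ _ ha hb hab u x y z hx hy hz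
    rw [Finset.sum_congr rfl fun u _ => this u]
    simp only [EE, BB, Finset.sum_sub_distrib, Finset.sum_add_distrib, ← Finset.sum_mul,
      Int.cast_sum]
  rw [map_sum, map_sum, map_zero] at h1
  simp only [map_smul, h2, smul_eq_mul] at h1
  have h3 : ∑ i, c i * (EE (q i) x y z : ℚ) - ((∑ i, c i * (BB (q i) x y : ℚ)) * α z +
      (∑ i, c i * (BB (q i) y z : ℚ)) * α x + (∑ i, c i * (BB (q i) z x : ℚ)) * α y) = 0 := by
    rw [← h1, Finset.sum_mul, Finset.sum_mul, Finset.sum_mul, ← Finset.sum_add_distrib,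
      ← Finset.sum_add_distrib, ← Finset.sum_sub_distrib]
    exact Finset.sum_congr rfl fun i _ => by ring
  linarith

/-- averaging -/
lemma avg (ω : ZMod p → ZMod p → ZMod p → ℚ) (β : ZMod p → ZMod p → ℚ) (α : ZMod p → ℚ)
    (h : ∀ x y z, x ≠ 0 → y ≠ 0 → z ≠ 0 → ω x y z = β x y * α z + β y z * α x + β z x * α y)
    (hω : ∀ x y z v, v ≠ 0 → ω (v * x) (v * y) (v * z) = ω x y z)
    (hβ : ∀ x y v, v ≠ 0 → β (v * x) (v * y) = β x y) (x y z : ZMod p) (hx : x ≠ 0)
    (hy : y ≠ 0) (hz : z ≠ 0) :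
    (p - 1 : ℚ) * ω x y z = (∑ v ∈ Finset.univ.erase (0 : ZMod p), α v) *
      (β x y + β y z + β z x) := by
  have hs : ∀ w : ZMod p, w ≠ 0 → ∑ v ∈ Finset.univ.erase (0 : ZMod p), α (v * w) =
      ∑ v ∈ Finset.univ.erase (0 : ZMod p), α v := by
    intro w hw
    refine Finset.sum_bij' (fun v _ => v * w) (fun v _ => v * w⁻¹) ?_ ?_ ?_ ?_ ?_
    · intro v hv
      simp only [Finset.mem_erase, Finset.mem_univ, and_true] at hv ⊢
      exact mul_ne_zero hv hw
    · intro v hv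
      simp only [Finset.mem_erase, Finset.mem_univ, and_true] at hv ⊢
      exact mul_ne_zero hv (inv_ne_zero hw)
    · intro v _
      rw [mul_assoc, mul_inv_cancel₀ hw, mul_one]
    · intro v _
      rw [mul_assoc, inv_mul_cancel₀ hw, mul_one]
    · intro v _; rfl
  have hcard : ((Finset.univ.erase (0 : ZMod p)).card : ℚ) = p - 1 := by
    rw [Finset.card_erase_of_mem (Finset.mem_univ _), Finset.card_univ, ZMod.card,
      Nat.cast_sub hp.out.one_le, Nat.cast_one]
  have h1 : ∑ v ∈ Finset.univ.erase (0 : ZMod p), ω x y z =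
      ∑ v ∈ Finset.univ.erase (0 : ZMod p), (β x y * α (v * z) + β y z * α (v * x) +
        β z x * α (v * y)) := by
    refine Finset.sum_congr rfl fun v hv => ?_
    have hv : v ≠ 0 := by simpa using hv
    rw [← hω x y z v hv, h _ _ _ (mul_ne_zero hv hx) (mul_ne_zero hv hy) (mul_ne_zero hv hz),
      hβ _ _ _ hv, hβ _ _ _ hv, hβ _ _ _ hv]
  rw [Finset.sum_const, nsmul_eq_mul, hcard, Finset.sum_add_distrib, Finset.sum_add_distrib,
    ← Finset.mul_sum, ← Finset.mul_sum, ← Finset.mul_sum, hs x hx, hs y hy, hs z hz] at h1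
  rw [h1]
  ring

/-- the traces in `H` -/
noncomputable def TT (t : ZMod p → ZMod p → B) (g : ZMod p → G) (m : B →ₗ[ℚ] G →ₗ[ℚ] H)
    (a b c : ZMod p) : H := TensorProduct.lift m (Zt t g a b c)

lemma TT_eq (a b c : ZMod p) : TT t g m a b c = ∑ u : ZMod p, m (t (u * a) (u * b)) (g (u * c)) := by
  unfold TT Zt
  rw [map_sum]
  rfl

lemma TT_rep (D : Dat t g m) (a b c : ZMod p) (s : ℤ) (q : ZMod p × ZMod p)
    (h : (s = 0 ∧ ∃ j : Fin 12, sgn j = -1 ∧ act j (a, b) = (a, b)) ∨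
      ∃ j : Fin 12, c ≠ 0 ∧ a = c * (act j q).1 ∧ b = c * (act j q).2 ∧ s = sgn j) :
    TT t g m a b c = (s : ℚ) • TT t g m q.1 q.2 1 := by
  unfold TT
  rcases h with ⟨hs, h⟩ | h
  · rw [Zt_deg D a b c h, hs, map_zero, Int.cast_zero, zero_smul]
  · rw [Zt_rep D a b c s q h, ← Int.cast_smul_eq_zsmul ℚ, map_smul]

/-- the trace of the relation between four points of sum zero -/
lemma r4tr (D : Dat t g m) (x y z w : ZMod p) (h : x + y + z + w = 0) :
    TT t g m x y w - TT t g m x y z + (TT t g m z w y - TT t g m z w x) +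
      (TT t g m y z x - TT t g m y z w) + (TT t g m w x z - TT t g m w x y) +
      (1 / 3 : ℚ) • ((TT t g m x y y - TT t g m x y x) + (TT t g m y z z - TT t g m y z y) +
      (TT t g m z w w - TT t g m z w z) + (TT t g m w x x - TT t g m w x w) -
      (2 : ℚ) • (TT t g m x z z - TT t g m x z x) - (2 : ℚ) • (TT t g m y w w - TT t g m y w y)) =
      0 := by
  simp only [TT_eq, ← Finset.sum_sub_distrib, ← Finset.sum_add_distrib, Finset.smul_sum]
  refine Finset.sum_eq_zero fun u _ => ?_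
  have h1 := D.r4 (u * x) (u * y) (u * z) (u * w) (by rw [← mul_add, ← mul_add, ← mul_add, h,
    mul_zero])
  simp only [map_sub] at h1
  exact h1

lemma XX_val (D : Dat t g m) (a b d : ZMod p) (h : a * d = 1) :
    TT t g m a b b - TT t g m a b a = Tr (fun a b => m (t a b) (g b - g a)) (d * b) := by
  rw [← Tr_sum a d h b]
  simp only [TT_eq, ← Finset.sum_sub_distrib, map_sub]

/-- the classes of sum zero -/
lemma TT_sum (D : Dat t g m) (hg : ∑ v ∈ Finset.univ.erase (0 : ZMod p), g v = 0)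
    (a b : ZMod p) : ∑ v ∈ Finset.univ.erase (0 : ZMod p), TT t g m a b v = 0 := by
  simp only [TT_eq]
  rw [Finset.sum_comm]
  refine Finset.sum_eq_zero fun u _ => ?_
  rw [← map_sum]
  by_cases hu : u = 0
  · subst hu
    have : t (0 * a) (0 * b) = 0 := by rw [zero_mul, zero_mul]; exact D.zero_left 0
    rw [this]
    simp
  · have hs : ∑ v ∈ Finset.univ.erase (0 : ZMod p), g (u * v) = 0 := by
      rw [← hg]
      refine Finset.sum_bij' (fun v _ => u * v) (fun v _ => u⁻¹ * v) ?_ ?_ ?_ ?_ ?_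
      · intro v hv
        simp only [Finset.mem_erase, Finset.mem_univ, and_true] at hv ⊢
        exact mul_ne_zero hu hv
      · intro v hv
        simp only [Finset.mem_erase, Finset.mem_univ, and_true] at hv ⊢
        exact mul_ne_zero (inv_ne_zero hu) hv
      · intro v _
        rw [← mul_assoc, inv_mul_cancel₀ hu, one_mul]
      · intro v _
        rw [← mul_assoc, mul_inv_cancel₀ hu, one_mul]
      · intro v _; rfl
    rw [hs, map_zero]

lemma span_Zt {n : ℕ} (D : Dat t g m) (q : Fin n → ZMod p × ZMod p)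
    (hq : ∀ a b : ZMod p, (∃ j : Fin 12, sgn j = -1 ∧ act j (a, b) = (a, b)) ∨
      (∃ i : Fin n, ∃ j : Fin 12, a = (act j (q i)).1 ∧ b = (act j (q i)).2))
    (z : B ⊗[ℚ] G) (hz : z ∈ Submodule.span ℚ {y | ∃ a b c : ZMod p, y = Zt t g a b c}) :
    ∃ c : Fin n → ℚ, z = ∑ i, c i • Zt t g (q i).1 (q i).2 1 := by
  have h1 : z ∈ Submodule.span ℚ (Set.range fun i : Fin n => Zt t g (q i).1 (q i).2 1) := by
    refine (Submodule.span_le.mpr ?_) hz
    rintro y ⟨a, b, c, rfl⟩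
    by_cases hc : c = 0
    · subst hc
      rw [Zt_zero D]
      exact Submodule.zero_mem _
    · have e : Zt t g a b c = Zt t g (c⁻¹ * a) (c⁻¹ * b) 1 := by
        rw [← Zt_mul (c⁻¹ * a) (c⁻¹ * b) 1 c hc, mul_one, ← mul_assoc, ← mul_assoc,
          mul_inv_cancel₀ hc, one_mul, one_mul]
      rw [e]
      rcases hq (c⁻¹ * a) (c⁻¹ * b) with h | ⟨i, j, h, h'⟩
      · rw [Zt_deg D _ _ _ h]
        exact Submodule.zero_mem _
      · rw [h, h', Zt_act D]
        have h2 : Zt t g (q i).1 (q i).2 1 ∈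
            Submodule.span ℚ (Set.range fun i : Fin n => Zt t g (q i).1 (q i).2 1) :=
          Submodule.subset_span ⟨i, rfl⟩
        exact zsmul_mem h2 _
  obtain ⟨c, hc⟩ := (Submodule.mem_span_range_iff_exists_fun ℚ).mp h1
  exact ⟨c, hc.symm⟩

end gen

end Pool.Agent.K4Tr
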